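import Pool.Agent.Work.MP_ca14f8_co.AV.Stmts

/-!
MP_ca14f8_co, block AV, item CL: the standardisation of one component.
-/

set_option autoImplicit false
open Classical

namespace Pool.Agent.Work.MP_ca14f8_co.AV

namespace XCL

/-- The auxiliary values: the common sites first, in the order of their positions. -/
noncomputable def ff {n : ℕ} (w : Equiv.Perm (Fin n)) (S0 : Finset (Fin n)) (x : Fin n) : ℕ :=
  if x ∈ S0 then x.val else n + (w x).val

theorem ff_in {n : ℕ} {w : Equiv.Perm (Fin n)} {S0 : Finset (Fin n)} {x : Fin n}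
    (h : x ∈ S0) : ff w S0 x = x.val := if_pos h

theorem ff_out {n : ℕ} {w : Equiv.Perm (Fin n)} {S0 : Finset (Fin n)} {x : Fin n}
    (h : x ∉ S0) : ff w S0 x = n + (w x).val := if_neg h

theorem ff_inj {n : ℕ} (w : Equiv.Perm (Fin n)) (S0 : Finset (Fin n)) :
    Function.Injective (ff w S0) := by
  intro x y h
  have hx := x.isLt
  have hy := y.isLt
  by_cases h1 : x ∈ S0
  · by_cases h2 : y ∈ S0
    · rw [ff_in h1, ff_in h2] at h
      exact Fin.ext h
    · rw [ff_in h1, ff_out h2] at h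
      omega
  · by_cases h2 : y ∈ S0
    · rw [ff_out h1, ff_in h2] at h
      omega
    · rw [ff_out h1, ff_out h2] at h
      exact w.injective (Fin.ext (by omega))

end XCL

theorem CL_pf (hCO : S_CO) (hP2 : S_P2) (hP4 : S_P4) (hP5 : S_P5) (hP6 : S_P6) (hP7 : S_P7)
    (hST : S_ST) : S_CL := by
  intro n w hAv c hc
  obtain ⟨K, hKdef⟩ : ∃ K, K = KK w c := ⟨_, rfl⟩
  have hK : Comp w K := by
    rw [hKdef]
    exact (hCO n w c hc).1
  rw [← hKdef]
  obtain ⟨S0, hB⟩ := hP2 n w hAv K hK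
  have h4 := hP4 n w K S0 hB
  obtain ⟨-, -, -, h6⟩ := hP6 n w K S0 hAv hK hB
  -- letters are south-east of `S0`
  have hse : ∀ x ∈ S0, ∀ l, (∃ p ∈ K, l = p.1 ∨ l = p.2) → x < l ∧ w x < w l := by
    rintro x hx l ⟨p, hp, hl⟩
    obtain ⟨h1, h2⟩ := h4 x hx p hp
    rcases hl with hl | hl
    · rw [hl]
      exact h1
    · rw [hl]
      exact h2
  -- letters are not in `S0`
  have hlet : ∀ l, (∃ p ∈ K, l = p.1 ∨ l = p.2) → l ∉ S0 := by
    intro l hl hS
    exact lt_irrefl _ (hse l hS l hl).1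
  obtain ⟨T, hT⟩ : ∃ T : Finset (Fin n), ∀ x, x ∈ T ↔ x ∈ S0 ∨ ∃ p ∈ K, x = p.1 ∨ x = p.2 :=
    ⟨Finset.univ.filter (fun x => x ∈ S0 ∨ ∃ p ∈ K, x = p.1 ∨ x = p.2), fun x => by
      rw [Finset.mem_filter]
      exact ⟨fun h => h.2, fun h => ⟨Finset.mem_univ _, h⟩⟩⟩
  obtain ⟨φ, hφdef⟩ : ∃ φ : Fin T.card ↪o Fin n, φ = T.orderEmbOfFin rfl := ⟨_, rfl⟩
  have hφm : ∀ a, φ a ∈ T := fun a => by
    rw [hφdef]
    exact Finset.orderEmbOfFin_mem T rfl a
  have hφr : ∀ x ∈ T, ∃ a, φ a = x := fun x hx => by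
    have h : x ∈ Set.range φ := by
      rw [hφdef, Finset.range_orderEmbOfFin]
      exact hx
    exact h
  have hφlt : ∀ a b, φ a < φ b ↔ a < b := fun a b => φ.lt_iff_lt
  obtain ⟨v, hv⟩ := hST T.card (fun a => XCL.ff w S0 (φ a))
    ((XCL.ff_inj w S0).comp φ.injective)
  -- the inversions of `v`
  have hC : ∀ b c' : Fin T.card, b < c' → v c' < v b → (φ b, φ c') ∈ K := by
    intro b c' hbc hvbc
    have h1 := (hφlt b c').2 hbc
    have h2 : XCL.ff w S0 (φ c') < XCL.ff w S0 (φ b) := (hv c' b).1 hvbc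
    have h1v : (φ b).val < (φ c').val := h1
    have hq : φ c' ∉ S0 := by
      intro hq
      by_cases hj : φ b ∈ S0
      · rw [XCL.ff_in hq, XCL.ff_in hj] at h2
        omega
      · have hl : ∃ p ∈ K, φ b = p.1 ∨ φ b = p.2 := ((hT _).1 (hφm b)).resolve_left hj
        exact absurd (hse _ hq _ hl).1 (not_lt.2 h1.le)
    have hql : ∃ p ∈ K, φ c' = p.1 ∨ φ c' = p.2 := ((hT _).1 (hφm c')).resolve_left hq
    have hj : φ b ∉ S0 := by
      intro hj
      rw [XCL.ff_in hj, XCL.ff_out hq] at h2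
      have := (φ b).isLt
      omega
    have hjl : ∃ p ∈ K, φ b = p.1 ∨ φ b = p.2 := ((hT _).1 (hφm b)).resolve_left hj
    rw [XCL.ff_out hj, XCL.ff_out hq] at h2
    have h3 : w (φ c') < w (φ b) := by
      rw [Fin.lt_def]
      omega
    exact h6 _ _ hjl hql h1 h3
  refine ⟨T.card, v, φ, φ.injective, ?_, ?_, ?_⟩
  · rcases hP7 n w K S0 hAv hK hB with h7 | h7
    · left
      have hex : ∃ m : ℕ, ∃ c' : Fin T.card, c'.val = m ∧ ∃ p ∈ K, φ c' = p.2 := by
        obtain ⟨p, hp⟩ := hK.ne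
        obtain ⟨a, ha⟩ := hφr p.2 ((hT _).2 (Or.inr ⟨p, hp, Or.inr rfl⟩))
        exact ⟨a.val, a, rfl, p, hp, ha⟩
      refine ⟨Nat.find hex, fun i j hij hvij => ?_⟩
      have hk := hC i j hij hvij
      obtain ⟨c0, hc0, p0, hp0, hφ0⟩ := Nat.find_spec hex
      constructor
      · rw [← hc0]
        have h8 : φ i < p0.2 := h7 _ hk _ hp0
        rw [← hφ0] at h8
        exact (hφlt i c0).1 h8
      · exact Nat.find_min' hex ⟨j, rfl, _, hk, rfl⟩
    · right
      have hex : ∃ m : ℕ, ∃ b : Fin T.card, (v b).val = m ∧ ∃ p ∈ K, φ b = p.1 := by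
        obtain ⟨p, hp⟩ := hK.ne
        obtain ⟨a, ha⟩ := hφr p.1 ((hT _).2 (Or.inr ⟨p, hp, Or.inl rfl⟩))
        exact ⟨(v a).val, a, rfl, p, hp, ha⟩
      refine ⟨Nat.find hex, fun s t hst hvst => ?_⟩
      have es : v (v⁻¹ s) = s := by simp
      have et : v (v⁻¹ t) = t := by simp
      have hk := hC (v⁻¹ t) (v⁻¹ s) hvst (by rw [es, et]; exact hst)
      obtain ⟨b0, hb0, p0, hp0, hφ0⟩ := Nat.find_spec hex
      constructor
      · rw [← hb0]
        have h8 : v (v⁻¹ s) < v b0 := by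
          rw [hv, XCL.ff_out (hlet (φ (v⁻¹ s)) ⟨_, hk, Or.inr rfl⟩),
            XCL.ff_out (hlet (φ b0) ⟨_, hp0, Or.inl hφ0⟩)]
          have h9 : w (φ (v⁻¹ s)) < w p0.1 := h7 _ hp0 _ hk
          rw [← hφ0, Fin.lt_def] at h9
          omega
        rw [es] at h8
        exact h8
      · have h10 := Nat.find_min' hex ⟨v⁻¹ t, rfl, _, hk, rfl⟩
        rw [et] at h10
        exact h10
  · intro a p
    constructor
    · rintro ⟨hp, hpK⟩
      obtain ⟨b, hb⟩ := hφr p.1 ((hT _).2 (Or.inr ⟨p, hpK, Or.inl rfl⟩))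
      obtain ⟨d, hd⟩ := hφr p.2 ((hT _).2 (Or.inr ⟨p, hpK, Or.inr rfl⟩))
      rw [mem_fam, ← hb, ← hd] at hp
      obtain ⟨q1, q2, q3, q4⟩ := hp
      have hbo := XCL.ff_out (w := w) (hlet (φ b) ⟨p, hpK, Or.inl hb⟩)
      have hdo := XCL.ff_out (w := w) (hlet (φ d) ⟨p, hpK, Or.inr hd⟩)
      refine ⟨(b, d), ?_, Prod.ext hb.symm hd.symm⟩
      rw [mem_fam]
      refine ⟨(hφlt a b).1 q1, (hφlt b d).1 q2, ?_, ?_⟩
      · rw [hv]
        show XCL.ff w S0 (φ a) < XCL.ff w S0 (φ d)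
        rw [hdo]
        by_cases ha : φ a ∈ S0
        · rw [XCL.ff_in ha]
          have := (φ a).isLt
          omega
        · rw [XCL.ff_out ha]
          rw [Fin.lt_def] at q3
          omega
      · rw [hv]
        show XCL.ff w S0 (φ d) < XCL.ff w S0 (φ b)
        rw [hdo, hbo]
        rw [Fin.lt_def] at q4
        omega
    · rintro ⟨⟨b, d⟩, hq, rfl⟩
      rw [mem_fam] at hq
      obtain ⟨q1, q2, q3, q4⟩ := hq
      have hk := hC b d q2 q4
      refine ⟨?_, hk⟩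
      have hVi := hK.sub hk
      rw [mem_Vi] at hVi
      obtain ⟨i0, hi0⟩ := hVi
      rw [mem_fam] at hi0
      rw [mem_fam]
      refine ⟨(hφlt a b).2 q1, (hφlt b d).2 q2, ?_, hi0.2.2.2⟩
      have hdl : ∃ p ∈ K, φ d = p.1 ∨ φ d = p.2 := ⟨_, hk, Or.inr rfl⟩
      by_cases ha : φ a ∈ S0
      · exact (hse _ ha _ hdl).2
      · have h3 : XCL.ff w S0 (φ a) < XCL.ff w S0 (φ d) := (hv a d).1 q3
        rw [XCL.ff_out ha, XCL.ff_out (hlet _ hdl)] at h3
        show w (φ a) < w (φ d)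
        rw [Fin.lt_def]
        omega
  · intro i hi p hp hpK
    apply hi
    have hiS : i ∈ SS w p := (mem_SS w p i).2 hp
    have hiT : i ∈ T := by
      rw [hT]
      by_cases h0 : i ∈ S0
      · exact Or.inl h0
      · exact Or.inr (hP5 n w K S0 hK hB p hpK i hiS h0)
    obtain ⟨a, ha⟩ := hφr i hiT
    exact ⟨a, ha⟩

end Pool.Agent.Work.MP_ca14f8_co.AV
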