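import Pool.Agent.Work.MP_ca14f8_co.AV.Stmts

/-!
Components, block AV of MP_ca14f8_co.
-/

set_option autoImplicit false
open Classical

namespace Pool.Agent.Work.MP_ca14f8_co.AV

namespace XCO

variable {n : ℕ}

theorem mem_KK (w : Equiv.Perm (Fin n)) (c p : Fin n × Fin n) :
    p ∈ KK w c ↔ p ∈ Vi w ∧ Relation.ReflTransGen (fun a b => b ∈ Vi w ∧ RC a b) c p := by
  simp [KK]

theorem RC_symm {ι : Type} {p q : ι × ι} (h : RC p q) : RC q p := by
  rcases h with h | h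
  · exact Or.inl h.symm
  · exact Or.inr h.symm

/-- If `P c` and `¬ P q` then `P` changes from true to false at some step. -/
theorem walk (w : Equiv.Perm (Fin n)) (c : Fin n × Fin n) (hc : c ∈ Vi w)
    (P : Fin n × Fin n → Prop) (hP : P c) (q : Fin n × Fin n)
    (h : Relation.ReflTransGen (fun a b => b ∈ Vi w ∧ RC a b) c q) (hq : ¬ P q) :
    ∃ a ∈ KK w c, ∃ b ∈ KK w c, P a ∧ ¬ P b ∧ RC a b := by
  induction h with
  | refl => exact absurd hP hq
  | tail h1 h2 ih =>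
    rename_i b d
    by_cases hb : P b
    · refine ⟨b, ?_, d, ?_, hb, hq, h2.2⟩
      · rw [mem_KK]
        refine ⟨?_, h1⟩
        rcases Relation.ReflTransGen.cases_tail h1 with h3 | ⟨e, _, h4⟩
        · rw [h3]; exact hc
        · exact h4.1
      · rw [mem_KK]
        exact ⟨h2.1, h1.tail h2⟩
    · exact ih hb

end XCO

theorem CO_pf : S_CO := by
  intro n w c hc
  have hcc : c ∈ KK w c := by
    rw [XCO.mem_KK]; exact ⟨hc, Relation.ReflTransGen.refl⟩
  refine ⟨⟨⟨c, hcc⟩, ?_, ?_, ?_⟩, hcc⟩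
  · intro p hp
    rw [XCO.mem_KK] at hp
    exact hp.1
  · intro p hp q hq hpq
    rw [XCO.mem_KK] at hp ⊢
    exact ⟨hq, hp.2.tail ⟨hq, hpq⟩⟩
  · rintro P ⟨p, hp, hPp⟩ ⟨q, hq, hPq⟩
    rw [XCO.mem_KK] at hp hq
    by_cases hP : P c
    · exact XCO.walk w c hc P hP q hq.2 hPq
    · obtain ⟨a, ha, b, hb, h1, h2, h3⟩ := XCO.walk w c hc (fun x => ¬ P x) hP p hp.2 (not_not.mpr hPp)
      exact ⟨b, hb, a, ha, not_not.mp h2, h1, XCO.RC_symm h3⟩

end Pool.Agent.Work.MP_ca14f8_co.AV
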