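import Pool.Agent.Work.MP_ca14f8_co.AV.Stmts

/-!
Item DM of the block AV of MP_ca14f8_co: multiplicativity for families without common rows and
columns.
-/

set_option autoImplicit false
open Classical

namespace Pool.Agent.Work.MP_ca14f8_co.AV

namespace XDM

theorem mem_blw {ι κ : Type} [Fintype ι] [DecidableEq ι] (k : ℕ) (F : κ → Finset (ι × ι))
    (x : κ × Fin k) (p : (ι × Fin k) × (ι × Fin k)) :
    p ∈ blw k F x ↔ (p.1.1, p.2.1) ∈ F x.1 := by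
  unfold blw
  rw [Finset.mem_filter]
  exact ⟨fun h => h.2, fun h => ⟨Finset.mem_univ _, h⟩⟩

theorem blw_union {ι κ : Type} [Fintype ι] [DecidableEq ι] (k : ℕ) (F F' : κ → Finset (ι × ι))
    (x : κ × Fin k) : blw k (fun i => F i ∪ F' i) x = blw k F x ∪ blw k F' x := by
  ext p
  rw [Finset.mem_union, mem_blw, mem_blw, mem_blw, Finset.mem_union]

theorem disj {ι κ : Type} [Fintype ι] [DecidableEq ι] (k : ℕ) (F F' : κ → Finset (ι × ι))
    (h : ∀ i i', ∀ p ∈ F i, ∀ p' ∈ F' i', p.1 ≠ p'.1 ∧ p.2 ≠ p'.2) (x x' : κ × Fin k) :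
    ∀ p ∈ blw k F x, ∀ p' ∈ blw k F' x', p.1 ≠ p'.1 ∧ p.2 ≠ p'.2 := by
  intro p hp p' hp'
  rw [mem_blw] at hp hp'
  have h1 := h x.1 x'.1 _ hp _ hp'
  refine ⟨fun h2 => h1.1 ?_, fun h2 => h1.2 ?_⟩
  · change p.1.1 = p'.1.1
    rw [h2]
  · change p.2.1 = p'.2.1
    rw [h2]

end XDM

theorem DM_pf (hMU1 : S_MU1) (hMU2 : S_MU2) (hFS : S_FS) (hFM : S_FM) : S_DM := by
  intro ι κ _ _ _ k F F' h
  have h1 : LF (blw k fun i => F i ∪ F' i) = LF (blw k F) * LF (blw k F') := by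
    unfold LF
    rw [← Finset.prod_mul_distrib]
    refine Finset.prod_congr rfl fun x _ => ?_
    rw [XDM.blw_union]
    exact le_antisymm (hMU1 _ _ _ (XDM.disj k F F' h x x)) (hMU2 _ _ _ (XDM.disj k F F' h x x))
  unfold DD
  rw [h1]
  have h2 := hFS (ι × Fin k) (κ × Fin k) (blw k F)
  have h3 := hFS (ι × Fin k) (κ × Fin k) (blw k F')
  refine hFM _ _ _ ?_ _ _ h2.1 h3.1 h2.2 h3.2
  rw [Set.disjoint_left]
  rintro p ⟨x, hx⟩ ⟨x', hx'⟩
  exact (XDM.disj k F F' h x x' p hx p hx').1 rfl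

end Pool.Agent.Work.MP_ca14f8_co.AV
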