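import Pool.Agent.Work.MP_ca14f8_co.AV.Stmts

/-!
Item FB of the block AV of MP_ca14f8_co: the family of sets of cells of the blow-up of a permutation.
-/

set_option autoImplicit false
open Classical

namespace Pool.Agent.Work.MP_ca14f8_co.AV

theorem FB_pf : S_FB := by
  intro n k w i j q r s t
  rw [mem_fam, mem_fam]
  simp only [Bl_apply, lt_iff]
  constructor
  · rintro ⟨h1, h2, h3, h4⟩
    rcases h1 with h1 | ⟨h1, h1'⟩
    · rcases h2 with h2 | ⟨h2, h2'⟩
      · refine ⟨h1, h2, ?_, ?_⟩
        · rcases h3 with h3 | ⟨h3, _⟩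
          · exact h3
          · exact absurd (w.injective h3) (ne_of_lt (h1.trans h2))
        · rcases h4 with h4 | ⟨h4, _⟩
          · exact h4
          · exact absurd (w.injective h4).symm (ne_of_lt h2)
      · exfalso
        subst h2
        rcases h4 with h4 | ⟨_, h4⟩
        · exact lt_irrefl _ h4
        · exact lt_asymm h2' h4
    · exfalso
      subst h1
      rcases h3 with h3 | ⟨h3, h3'⟩
      · rcases h4 with h4 | ⟨h4, _⟩
        · exact lt_asymm h3 h4
        · exact absurd (h4 ▸ h3) (lt_irrefl _)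
      · have hiq := w.injective h3
        subst hiq
        rcases h2 with h2 | ⟨_, h2⟩
        · exact lt_irrefl _ h2
        · rcases h4 with h4 | ⟨_, h4⟩
          · exact lt_irrefl _ h4
          · exact lt_asymm h2 h4
  · rintro ⟨h1, h2, h3, h4⟩
    exact ⟨Or.inl h1, Or.inl h2, Or.inl h3, Or.inl h4⟩

end Pool.Agent.Work.MP_ca14f8_co.AV
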