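import Pool.Agent.Work.MP_ca14f8_co.AV.Stmts

/-!
MP_ca14f8_co, block AV, item FIN: the assembly.
-/

set_option autoImplicit false
open Classical

namespace Pool.Agent.Work.MP_ca14f8_co.AV

namespace XFIN

theorem mem_rs {n : ℕ} (w : Equiv.Perm (Fin n)) (U : Finset (Fin n × Fin n)) (i : Fin n)
    (p : Fin n × Fin n) : p ∈ rs w U i ↔ p ∈ fam w i ∧ p ∈ U := by
  unfold rs
  rw [Finset.mem_filter]

theorem finrank_one {σ : Type} :
    Module.finrank ℚ (1 : Submodule ℚ (MvPolynomial σ ℚ)) = 1 := by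
  rw [Submodule.one_eq_span]
  exact finrank_span_singleton one_ne_zero

theorem DD_empty (hMAE : S_MAE) {n : ℕ} (w : Equiv.Perm (Fin n)) (k : ℕ) :
    DD k (rs w ∅) = 1 := by
  unfold DD LF
  have h1 : ∀ x : Fin n × Fin k, blw k (rs w ∅) x = ∅ := by
    intro x
    unfold blw
    rw [Finset.filter_eq_empty_iff]
    intro p _ hp
    exact absurd ((mem_rs w ∅ x.1 _).1 hp).2 (Finset.notMem_empty _)
  have h2 : ∏ x : Fin n × Fin k, MA (blw k (rs w ∅) x) = 1 := by
    refine Finset.prod_eq_one fun x _ => ?_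
    rw [h1 x]
    exact (hMAE _).1
  rw [h2]
  exact finrank_one

theorem KK_sub {n : ℕ} (w : Equiv.Perm (Fin n)) (U : Finset (Fin n × Fin n))
    (hU : ∀ p ∈ U, ∀ q ∈ Vi w, RC p q → q ∈ U) (c : Fin n × Fin n) (hc : c ∈ U) :
    KK w c ⊆ U := by
  intro p hp
  unfold KK at hp
  rw [Finset.mem_filter] at hp
  have hw := hp.2
  clear hp
  induction hw with
  | refl => exact hc
  | tail _ h2 ih => exact hU _ ih _ h2.1 h2.2

end XFIN

theorem ONE_pf (hCL : S_CL) (hRD : S_RD) (hUD : S_UD) (hOD : S_OD) : S_ONE := by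
  intro n k w hAv c hc
  obtain ⟨N, v, φ, hφ, hone, hcell, hout⟩ := hCL n w hAv c hc
  have hD : ∀ k : ℕ, DD k (rs w (KK w c)) = DD k (fam v) := by
    intro k
    refine hRD (Fin N) (Fin N) (Fin n) (Fin n) k (fam v) (rs w (KK w c)) φ φ hφ hφ ?_ ?_
    · intro i p
      rw [XFIN.mem_rs]
      exact hcell i p
    · intro i hi
      rw [Finset.eq_empty_iff_forall_notMem]
      intro p hp
      rw [XFIN.mem_rs] at hp
      exact hout i hi p hp.1 hp.2
  rw [hD, hD]
  have h1 := hOD N k v hone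
  obtain ⟨h2, h3⟩ := hUD N v
  rw [h2 k, h3] at h1
  exact_mod_cast h1

theorem ALL_pf (hCO : S_CO) (hDM : S_DM) (hMAE : S_MAE) (hONE : S_ONE) : S_ALL := by
  intro n k w hAv U
  induction U using Finset.strongInduction with
  | H U ih =>
    intro hU hcl
    rcases U.eq_empty_or_nonempty with h0 | ⟨c, hc⟩
    · rw [h0, XFIN.DD_empty hMAE, XFIN.DD_empty hMAE, one_pow]
    · have hcV := hU hc
      obtain ⟨hK, hcK⟩ := hCO n w c hcV
      obtain ⟨K, hKdef⟩ : ∃ K, K = KK w c := ⟨_, rfl⟩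
      have hKU : K ⊆ U := by
        rw [hKdef]
        exact XFIN.KK_sub w U hcl c hc
      have hone := hONE n k w hAv c hcV
      rw [← hKdef] at hK hcK hone
      have hss : U \ K ⊂ U := by
        refine Finset.ssubset_iff_subset_ne.2 ⟨Finset.sdiff_subset, fun h => ?_⟩
        rw [← h, Finset.mem_sdiff] at hc
        exact hc.2 hcK
      have hrec := ih (U \ K) hss (Finset.sdiff_subset.trans hU) (by
        intro p hp q hq hpq
        rw [Finset.mem_sdiff] at hp ⊢
        refine ⟨hcl p hp.1 q hq hpq, fun hqK => hp.2 ?_⟩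
        refine hK.closed q hqK p (hU hp.1) ?_
        rcases hpq with h | h
        · exact Or.inl h.symm
        · exact Or.inr h.symm)
      have hun : rs w U = fun i => rs w K i ∪ rs w (U \ K) i := by
        funext i
        ext p
        rw [Finset.mem_union, XFIN.mem_rs, XFIN.mem_rs, XFIN.mem_rs, Finset.mem_sdiff]
        constructor
        · rintro ⟨h1, h2⟩
          by_cases h3 : p ∈ K
          · exact Or.inl ⟨h1, h3⟩
          · exact Or.inr ⟨h1, h2, h3⟩
        · rintro (⟨h1, h2⟩ | ⟨h1, h2, -⟩)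
          · exact ⟨h1, hKU h2⟩
          · exact ⟨h1, h2⟩
      have hdis : ∀ i i' : Fin n, ∀ p ∈ rs w K i, ∀ p' ∈ rs w (U \ K) i',
          p.1 ≠ p'.1 ∧ p.2 ≠ p'.2 := by
        intro i i' p hp p' hp'
        rw [XFIN.mem_rs] at hp hp'
        rw [Finset.mem_sdiff] at hp'
        constructor
        · intro h
          exact hp'.2.2 (hK.closed p hp.2 p' (hU hp'.2.1) (Or.inl h))
        · intro h
          exact hp'.2.2 (hK.closed p hp.2 p' (hU hp'.2.1) (Or.inr h))
      rw [hun, hDM (Fin n) (Fin n) 1 (rs w K) (rs w (U \ K)) hdis,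
        hDM (Fin n) (Fin n) k (rs w K) (rs w (U \ K)) hdis, mul_pow]
      exact Nat.mul_le_mul hone hrec

theorem THM_pf (hALL : S_ALL) (hUD : S_UD) : S_THM := by
  intro n k w hAv
  have h1 : rs w (Vi w) = fam w := by
    funext i
    ext p
    rw [XFIN.mem_rs, mem_Vi]
    exact ⟨fun h => h.1, fun h => ⟨h, i, h⟩⟩
  have h2 := hALL n k w hAv (Vi w) (Finset.Subset.refl _) (fun p _ q hq _ => hq)
  rw [h1] at h2
  obtain ⟨h3, h4⟩ := hUD n w
  rw [h3 k, h4]
  exact_mod_cast h2

end Pool.Agent.Work.MP_ca14f8_co.AV
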