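import Pool.Agent.Work.MP_ca14f8_co.AV.Stmts

/-!
Item FM of the block AV of MP_ca14f8_co: the dimension of the product of two spaces of polynomials in
disjoint sets of variables.
-/

set_option autoImplicit false
open Classical

namespace Pool.Agent.Work.MP_ca14f8_co.AV

namespace XFM

/-- Evaluate the variables outside `s` at `y`. -/
noncomputable def E {σ : Type} (s : Set σ) (y : σ → ℚ) :
    MvPolynomial σ ℚ →ₐ[ℚ] MvPolynomial σ ℚ :=
  MvPolynomial.aeval (fun v => if v ∈ s then MvPolynomial.X v else MvPolynomial.C (y v))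

theorem E_s {σ : Type} (s : Set σ) (y : σ → ℚ) (f : MvPolynomial σ ℚ)
    (hf : f ∈ MvPolynomial.supported ℚ s) : E s y f = f := by
  have h : MvPolynomial.supported ℚ s ≤ AlgHom.equalizer (E s y) (AlgHom.id ℚ _) := by
    unfold MvPolynomial.supported
    rw [Algebra.adjoin_le_iff]
    rintro _ ⟨v, hv, rfl⟩
    show E s y (MvPolynomial.X v) = AlgHom.id ℚ _ (MvPolynomial.X v)
    unfold E
    rw [MvPolynomial.aeval_X, if_pos hv]
    rfl
  exact h hf

theorem E_t {σ : Type} (s t : Set σ) (hst : Disjoint s t) (y : σ → ℚ) (g : MvPolynomial σ ℚ)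
    (hg : g ∈ MvPolynomial.supported ℚ t) : E s y g = MvPolynomial.C (MvPolynomial.eval y g) := by
  have h : MvPolynomial.supported ℚ t ≤ AlgHom.equalizer (E s y)
      ((Algebra.ofId ℚ (MvPolynomial σ ℚ)).comp (MvPolynomial.aeval y)) := by
    unfold MvPolynomial.supported
    rw [Algebra.adjoin_le_iff]
    rintro _ ⟨v, hv, rfl⟩
    show E s y (MvPolynomial.X v) =
      ((Algebra.ofId ℚ (MvPolynomial σ ℚ)).comp (MvPolynomial.aeval y)) (MvPolynomial.X v)
    have hvs : v ∉ s := fun h => Set.disjoint_left.mp hst h hv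
    unfold E
    rw [MvPolynomial.aeval_X, if_neg hvs, AlgHom.comp_apply, MvPolynomial.aeval_X]
    rfl
  have h2 := h hg
  have h3 : E s y g = ((Algebra.ofId ℚ (MvPolynomial σ ℚ)).comp (MvPolynomial.aeval y)) g := h2
  rw [h3, AlgHom.comp_apply]
  rfl

theorem indep {σ : Type} (s t : Set σ) (hst : Disjoint s t) {a b : ℕ}
    (f : Fin a → MvPolynomial σ ℚ) (g : Fin b → MvPolynomial σ ℚ)
    (hf : LinearIndependent ℚ f) (hg : LinearIndependent ℚ g)
    (hfs : ∀ i, f i ∈ MvPolynomial.supported ℚ s) (hgt : ∀ j, g j ∈ MvPolynomial.supported ℚ t) :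
    LinearIndependent ℚ (fun x : Fin a × Fin b => f x.1 * g x.2) := by
  rw [Fintype.linearIndependent_iff]
  intro c hc x
  have key : ∀ i, ∑ j, c (i, j) • g j = 0 := by
    intro i
    apply MvPolynomial.funext
    intro y
    have h1 := congrArg (E s y) hc
    rw [map_sum, map_zero, Fintype.sum_prod_type] at h1
    have h2 : ∑ i, (∑ j, c (i, j) * MvPolynomial.eval y (g j)) • f i = 0 := by
      rw [← h1]
      refine Finset.sum_congr rfl fun i _ => ?_
      rw [Finset.sum_smul]
      refine Finset.sum_congr rfl fun j _ => ?_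
      rw [map_smul, map_mul, E_s s y _ (hfs i), E_t s t hst y _ (hgt j), mul_smul,
        mul_comm (f i), ← MvPolynomial.smul_eq_C_mul]
    have h3 := Fintype.linearIndependent_iff.mp hf _ h2 i
    rw [map_sum, map_zero, ← h3]
    refine Finset.sum_congr rfl fun j _ => ?_
    rw [MvPolynomial.smul_eval]
  exact Fintype.linearIndependent_iff.mp hg (fun j => c (x.1, j)) (key x.1) x.2

end XFM

theorem FM_pf : S_FM := by
  intro σ s t hst A B hA hB hAs hBt
  set bA := Module.finBasis ℚ A with hbA
  set bB := Module.finBasis ℚ B with hbB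
  set f : Fin (Module.finrank ℚ A) → MvPolynomial σ ℚ := fun i => (bA i : MvPolynomial σ ℚ) with hf
  set g : Fin (Module.finrank ℚ B) → MvPolynomial σ ℚ := fun j => (bB j : MvPolynomial σ ℚ) with hg
  have hfi : LinearIndependent ℚ f :=
    bA.linearIndependent.map' A.subtype (Submodule.ker_subtype A)
  have hgi : LinearIndependent ℚ g :=
    bB.linearIndependent.map' B.subtype (Submodule.ker_subtype B)
  have hfA : Submodule.span ℚ (Set.range f) = A := by
    have h1 : Set.range f = A.subtype '' Set.range bA := by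
      rw [← Set.range_comp]
      rfl
    rw [h1, ← Submodule.map_span, bA.span_eq, Submodule.map_subtype_top]
  have hgB : Submodule.span ℚ (Set.range g) = B := by
    have h1 : Set.range g = B.subtype '' Set.range bB := by
      rw [← Set.range_comp]
      rfl
    rw [h1, ← Submodule.map_span, bB.span_eq, Submodule.map_subtype_top]
  have hI := XFM.indep s t hst f g hfi hgi (fun i => hAs _ (bA i).2) (fun j => hBt _ (bB j).2)
  have hS : A * B = Submodule.span ℚ
      (Set.range (fun x : Fin (Module.finrank ℚ A) × Fin (Module.finrank ℚ B) => f x.1 * g x.2)) := by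
    conv_lhs => rw [← hfA, ← hgB]
    rw [Submodule.span_mul_span]
    congr 1
    ext z
    rw [Set.mem_mul]
    constructor
    · rintro ⟨_, ⟨i, rfl⟩, _, ⟨j, rfl⟩, rfl⟩
      exact ⟨(i, j), rfl⟩
    · rintro ⟨x, rfl⟩
      exact ⟨f x.1, ⟨x.1, rfl⟩, g x.2, ⟨x.2, rfl⟩, rfl⟩
  rw [hS, finrank_span_eq_card hI, Fintype.card_prod, Fintype.card_fin, Fintype.card_fin]

end Pool.Agent.Work.MP_ca14f8_co.AV
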