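import Pool.Agent.Work.MP_ca14f8_co.AV.Stmts

/-!
Item FS of the block AV of MP_ca14f8_co: the spaces `LF F` are finite dimensional, and their elements
are polynomials in the variables which belong to the cells of `F`.
-/

set_option autoImplicit false
open Classical

namespace Pool.Agent.Work.MP_ca14f8_co.AV

namespace XFS

/-- The span of the minors is finitely generated over a finite index type. -/
theorem MA_fg {ι : Type} [DecidableEq ι] [Fintype ι] (S : Finset (ι × ι)) : (MA S).FG := by
  unfold MA
  apply Submodule.fg_span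
  refine (Set.finite_range (fun x : Finset ι × (ι → ι) => L3.mr (YS S) x.1 x.2)).subset ?_
  rintro f ⟨C, ρ, rfl⟩
  exact ⟨(C, ρ), rfl⟩

/-- Finite products of finitely generated submodules are finitely generated. -/
theorem prod_fg {κ R : Type} [CommRing R] [Algebra ℚ R] (s : Finset κ)
    (f : κ → Submodule ℚ R) (h : ∀ i ∈ s, (f i).FG) : (∏ i ∈ s, f i).FG := by
  induction s using Finset.induction_on with
  | empty =>
    rw [Finset.prod_empty, Submodule.one_eq_span]
    exact Submodule.fg_span (Set.finite_singleton _)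
  | insert i s hi ih =>
    rw [Finset.prod_insert hi]
    exact (h i (Finset.mem_insert_self _ _)).mul
      (ih (fun j hj => h j (Finset.mem_insert_of_mem hj)))

/-- Finite products of submodules contained in a subalgebra are contained in it. -/
theorem prod_le {κ R : Type} [CommRing R] [Algebra ℚ R] (A : Subalgebra ℚ R) (s : Finset κ)
    (f : κ → Submodule ℚ R) (h : ∀ i ∈ s, f i ≤ Subalgebra.toSubmodule A) :
    (∏ i ∈ s, f i) ≤ Subalgebra.toSubmodule A := by
  induction s using Finset.induction_on with
  | empty =>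
    rw [Finset.prod_empty, Submodule.one_eq_span, Submodule.span_le]
    rintro x hx
    rw [Set.mem_singleton_iff] at hx
    subst hx
    exact A.one_mem
  | insert i s hi ih =>
    rw [Finset.prod_insert hi, Submodule.mul_le]
    intro x hx y hy
    exact A.mul_mem (h i (Finset.mem_insert_self _ _) hx)
      (ih (fun j hj => h j (Finset.mem_insert_of_mem hj)) hy)

/-- The minors of `YS S` are polynomials in the variables in `S`. -/
theorem MA_le {ι : Type} [DecidableEq ι] (S : Finset (ι × ι)) (T : Set (ι × ι))
    (hT : ∀ p ∈ S, p ∈ T) :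
    MA S ≤ Subalgebra.toSubmodule (MvPolynomial.supported ℚ T) := by
  unfold MA
  rw [Submodule.span_le]
  rintro f ⟨C, ρ, rfl⟩
  show L3.mr (YS S) C ρ ∈ MvPolynomial.supported ℚ T
  unfold L3.mr
  rw [Matrix.det_apply]
  refine Subalgebra.sum_mem _ fun σ _ => ?_
  rw [Units.smul_def, zsmul_eq_mul]
  refine Subalgebra.mul_mem _ ?_ ?_
  · exact Subalgebra.intCast_mem _ _
  · refine Subalgebra.prod_mem _ fun b _ => ?_
    rw [Matrix.of_apply]
    unfold YS
    rw [Matrix.of_apply]
    split_ifs with hc
    · exact MvPolynomial.X_mem_supported.mpr (hT _ hc)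
    · exact Subalgebra.zero_mem _

end XFS

theorem FS_pf : S_FS := by
  intro ι κ _ _ _ F
  refine ⟨Module.Finite.iff_fg.mpr (XFS.prod_fg _ _ fun i _ => XFS.MA_fg _), fun f hf => ?_⟩
  exact XFS.prod_le (MvPolynomial.supported ℚ {p : ι × ι | ∃ i, p ∈ F i}) Finset.univ _
    (fun i _ => XFS.MA_le (F i) _ fun p hp => ⟨i, hp⟩) hf

end Pool.Agent.Work.MP_ca14f8_co.AV
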