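import Pool.Agent.Work.MP_ca14f8_co.AV.Stmts

/-!
Item GM of the block AV of MP_ca14f8_co: general minors.
-/

set_option autoImplicit false
open Classical

namespace Pool.Agent.Work.MP_ca14f8_co.AV

theorem GM_pf : S_GM := by
  intro ι γ _ _ _ S r c
  by_cases hinj : Function.Injective c
  · -- reindex by the image of `c`
    let C : Finset ι := Finset.univ.image c
    have hmem : ∀ x, c x ∈ C := fun x => Finset.mem_image_of_mem c (Finset.mem_univ x)
    let f : γ → C := fun x => ⟨c x, hmem x⟩
    have hf : Function.Bijective f := by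
      constructor
      · intro x y hxy
        exact hinj (congrArg Subtype.val hxy)
      · rintro ⟨q, hq⟩
        obtain ⟨x, _, hx⟩ := Finset.mem_image.1 hq
        exact ⟨x, Subtype.ext hx⟩
    let e : γ ≃ C := Equiv.ofBijective f hf
    let ρ : ι → ι := fun q => if h : q ∈ C then r (e.symm ⟨q, h⟩) else q
    have hρ : ∀ x, ρ (c x) = r x := by
      intro x
      have h1 : e.symm ⟨c x, hmem x⟩ = x := by
        rw [Equiv.symm_apply_eq]
        rfl
      simp only [ρ]
      rw [dif_pos (hmem x), h1]
    have hkey : (Matrix.of (fun a b : γ => YS S (r a) (c b))).det = L3.mr (YS S) C ρ := by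
      unfold L3.mr
      rw [← Matrix.det_submatrix_equiv_self e]
      congr 1
      ext a b
      simp only [Matrix.submatrix_apply, Matrix.of_apply]
      have h1 : ((e a : C) : ι) = c a := rfl
      have h2 : ((e b : C) : ι) = c b := rfl
      rw [h1, h2, hρ]
    rw [hkey]
    unfold MA
    apply Submodule.subset_span
    exact ⟨C, ρ, rfl⟩
  · -- two equal columns
    have h1 : ∃ x y, c x = c y ∧ x ≠ y := by
      by_contra hcon
      apply hinj
      intro x y hxy
      by_contra hne
      exact hcon ⟨x, y, hxy, hne⟩
    obtain ⟨x, y, hxy, hne⟩ := h1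
    have h2 : (Matrix.of (fun a b : γ => YS S (r a) (c b))).det = 0 := by
      apply Matrix.det_zero_of_column_eq hne
      intro k
      simp only [Matrix.of_apply]
      rw [hxy]
    rw [h2]
    exact Submodule.zero_mem _

end Pool.Agent.Work.MP_ca14f8_co.AV
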