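import Pool.Agent.Work.MP_ca14f8_co.AV.Stmts

/-!
Item MAI of the block AV of MP_ca14f8_co: relabelling of one set of cells.
-/

set_option autoImplicit false
open Classical

namespace Pool.Agent.Work.MP_ca14f8_co.AV

namespace XMAI

/-- A row outside the rows of the cells is zero. -/
theorem row_zero {ι : Type} [DecidableEq ι] {S : Finset (ι × ι)} {a b : ι}
    (h : ∀ p ∈ S, p.1 ≠ a) : YS S a b = 0 := by
  unfold YS
  rw [Matrix.of_apply, if_neg]
  intro hm
  exact h _ hm rfl

/-- A column outside the columns of the cells is zero. -/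
theorem col_zero {ι : Type} [DecidableEq ι] {S : Finset (ι × ι)} {a b : ι}
    (h : ∀ p ∈ S, p.2 ≠ b) : YS S a b = 0 := by
  unfold YS
  rw [Matrix.of_apply, if_neg]
  intro hm
  exact h _ hm rfl

/-- The entries. -/
theorem entry {ι ι' : Type} [DecidableEq ι] [DecidableEq ι'] {φ : ι → ι'}
    {S : Finset (ι × ι)} {S' : Finset (ι' × ι')} (hφ : Function.Injective φ)
    (hS : ∀ p : ι' × ι', p ∈ S' ↔ ∃ q ∈ S, p = (φ q.1, φ q.2)) (a b : ι) :
    YS S' (φ a) (φ b) =
      (MvPolynomial.rename (Prod.map φ φ) :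
        MvPolynomial (ι × ι) ℚ →ₐ[ℚ] MvPolynomial (ι' × ι') ℚ) (YS S a b) := by
  unfold YS
  rw [Matrix.of_apply, Matrix.of_apply]
  by_cases h : (a, b) ∈ S
  · have h' : (φ a, φ b) ∈ S' := (hS _).mpr ⟨(a, b), h, rfl⟩
    rw [if_pos h, if_pos h', MvPolynomial.rename_X]
    rfl
  · have h' : (φ a, φ b) ∉ S' := by
      intro hm
      obtain ⟨q, hq, he⟩ := (hS _).mp hm
      have h1 : φ a = φ q.1 := congrArg Prod.fst he
      have h2 : φ b = φ q.2 := congrArg Prod.snd he
      apply h
      have : (a, b) = q := Prod.ext (hφ h1) (hφ h2)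
      rw [this]
      exact hq
    rw [if_neg h, if_neg h', map_zero]

/-- The determinants. -/
theorem dets {ι ι' γ : Type} [DecidableEq ι] [DecidableEq ι'] [Fintype γ] [DecidableEq γ]
    {φ : ι → ι'} {S : Finset (ι × ι)} {S' : Finset (ι' × ι')} (hφ : Function.Injective φ)
    (hS : ∀ p : ι' × ι', p ∈ S' ↔ ∃ q ∈ S, p = (φ q.1, φ q.2)) (r c : γ → ι) :
    (Matrix.of (fun a b : γ => YS S' (φ (r a)) (φ (c b)))).det =
      (MvPolynomial.rename (Prod.map φ φ) :
        MvPolynomial (ι × ι) ℚ →ₐ[ℚ] MvPolynomial (ι' × ι') ℚ)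
          (Matrix.of (fun a b : γ => YS S (r a) (c b))).det := by
  rw [AlgHom.map_det]
  congr 1
  ext1 a b
  rw [AlgHom.mapMatrix_apply, Matrix.map_apply, Matrix.of_apply, Matrix.of_apply]
  exact entry hφ hS _ _

end XMAI

open XMAI in
/-- Relabelling of one set of cells. -/
theorem MAI_pf (hGM : S_GM) : S_MAI := by
  intro ι ι' _ _ φ S S' hφ hS
  apply le_antisymm
  · unfold MA
    rw [Submodule.span_le]
    rintro f ⟨C, ρ, rfl⟩
    by_cases h1 : ∀ b ∈ C, b ∈ Set.range φ
    · by_cases h2 : ∀ b ∈ C, ρ b ∈ Set.range φ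
      · choose g hg using fun b : C => h1 b.1 b.2
        choose r hr using fun b : C => h2 b.1 b.2
        have e : L3.mr (YS S') C ρ =
            (Matrix.of (fun a b : C => YS S' (φ (r a)) (φ (g b)))).det := by
          unfold L3.mr
          congr 1
          ext1 a b
          rw [Matrix.of_apply, Matrix.of_apply, hr a, hg b]
        rw [e, dets hφ hS r g]
        exact Submodule.mem_map_of_mem (hGM ι C S r g)
      · push Not at h2
        obtain ⟨b, hb, hn⟩ := h2
        have e : L3.mr (YS S') C ρ = 0 := by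
          unfold L3.mr
          refine Matrix.det_eq_zero_of_row_eq_zero (⟨b, hb⟩ : C) fun j => ?_
          rw [Matrix.of_apply]
          apply row_zero
          intro p hp he
          obtain ⟨q, _, hq⟩ := (hS p).mp hp
          apply hn
          exact ⟨q.1, by rw [← he, hq]⟩
        rw [e]
        exact Submodule.zero_mem _
    · push Not at h1
      obtain ⟨b, hb, hn⟩ := h1
      have e : L3.mr (YS S') C ρ = 0 := by
        unfold L3.mr
        refine Matrix.det_eq_zero_of_column_eq_zero (⟨b, hb⟩ : C) fun j => ?_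
        rw [Matrix.of_apply]
        apply col_zero
        intro p hp he
        obtain ⟨q, _, hq⟩ := (hS p).mp hp
        apply hn
        have he' : p.2 = b := he
        exact ⟨q.2, by rw [← he', hq]⟩
      rw [e]
      exact Submodule.zero_mem _
  · rw [Submodule.map_le_iff_le_comap]
    unfold MA
    rw [Submodule.span_le]
    rintro f ⟨C, ρ, rfl⟩
    have e := dets hφ hS (fun a : C => ρ a) (fun b : C => (b : ι))
    have h := hGM ι' C S' (fun a : C => φ (ρ a)) (fun b : C => φ (b : ι))
    rw [e] at h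
    exact h

end Pool.Agent.Work.MP_ca14f8_co.AV
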