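import Pool.Agent.Work.MP_ca14f8_co.AV.Stmts
import Pool.Agent.Work.MP_ca14f8_co.L3.I_LPL

/-!
Item MU1 of the block AV of MP_ca14f8_co: minors of a union of two sets of cells, upper inclusion.
-/

set_option autoImplicit false
open Classical

namespace Pool.Agent.Work.MP_ca14f8_co.AV

theorem MU1_pf (hGM : S_GM) : S_MU1 := by
  intro ι _ S S' hd
  unfold MA
  rw [Submodule.span_le]
  rintro f ⟨C, ρ, rfl⟩
  -- the columns of `S` and the others
  let P : C → Prop := fun b => ∃ a, (a, (b : ι)) ∈ S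
  let e : {b : C // P b} ⊕ {b : C // ¬ P b} ≃ C := Equiv.sumCompl P
  have h1 : L3.mr (YS (S ∪ S')) C ρ =
      (Matrix.submatrix (Matrix.of (fun (a b : C) => YS (S ∪ S') (ρ a) b)) e e).det := by
    rw [Matrix.det_submatrix_equiv_self]
    rfl
  rw [h1]
  have h2 := L3.LPL_pf {b : C // P b} {b : C // ¬ P b} (MvPolynomial (ι × ι) ℚ)
    (Matrix.submatrix (Matrix.of (fun (a b : C) => YS (S ∪ S') (ρ a) b)) e e)
  refine (Submodule.span_le.2 ?_) h2
  rintro x ⟨f, g, rfl⟩
  apply Submodule.mul_mem_mul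
  · have h3 := hGM ι {b : C // P b} S (fun a => ρ (e (f a))) (fun b => ((b : C) : ι))
    have h4 : (Matrix.of (fun a b : {b : C // P b} => (Matrix.submatrix (Matrix.of (fun (a b : C) =>
        YS (S ∪ S') (ρ a) b)) e e) (f a) (Sum.inl b))) =
        Matrix.of (fun a b : {b : C // P b} => YS S (ρ (e (f a))) ((b : C) : ι)) := by
      ext1 a b
      simp only [Matrix.of_apply, Matrix.submatrix_apply, e, Equiv.sumCompl_apply_inl]
      unfold YS
      simp only [Matrix.of_apply]
      obtain ⟨a0, ha0⟩ := b.2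
      by_cases h5 : (ρ ((Equiv.sumCompl P) (f a)), ((b : C) : ι)) ∈ S
      · rw [if_pos h5, if_pos (Finset.mem_union_left _ h5)]
      · rw [if_neg h5, if_neg]
        intro h6
        rcases Finset.mem_union.1 h6 with h7 | h7
        · exact h5 h7
        · exact (hd _ ha0 _ h7).2 rfl
    rw [h4]
    exact h3
  · have h3 := hGM ι {b : C // ¬ P b} S' (fun a => ρ (e (g a))) (fun b => ((b : C) : ι))
    have h4 : (Matrix.of (fun a b : {b : C // ¬ P b} => (Matrix.submatrix (Matrix.of (fun (a b : C)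
        => YS (S ∪ S') (ρ a) b)) e e) (g a) (Sum.inr b))) =
        Matrix.of (fun a b : {b : C // ¬ P b} => YS S' (ρ (e (g a))) ((b : C) : ι)) := by
      ext1 a b
      simp only [Matrix.of_apply, Matrix.submatrix_apply, e, Equiv.sumCompl_apply_inr]
      unfold YS
      simp only [Matrix.of_apply]
      by_cases h5 : (ρ ((Equiv.sumCompl P) (g a)), ((b : C) : ι)) ∈ S'
      · rw [if_pos h5, if_pos (Finset.mem_union_right _ h5)]
      · rw [if_neg h5, if_neg]
        intro h6
        rcases Finset.mem_union.1 h6 with h7 | h7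
        · exact b.2 ⟨_, h7⟩
        · exact h5 h7
    rw [h4]
    exact h3

end Pool.Agent.Work.MP_ca14f8_co.AV
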