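import Pool.Agent.Work.MP_ca14f8_co.AV.Stmts

/-!
Item MU2 of the block AV of MP_ca14f8_co: minors of a union of two sets of cells, lower inclusion.
-/

set_option autoImplicit false
open Classical

namespace Pool.Agent.Work.MP_ca14f8_co.AV

namespace XMU2

/-- A nonzero minor has only columns and rows which contain a cell. -/
theorem rowcol {ι : Type} [DecidableEq ι] (S : Finset (ι × ι)) (C : Finset ι) (ρ : ι → ι)
    (h : L3.mr (YS S) C ρ ≠ 0) :
    (∀ b ∈ C, ∃ a, (a, b) ∈ S) ∧ (∀ b ∈ C, ∃ c, (ρ b, c) ∈ S) := by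
  constructor
  · intro b hb
    by_contra hcon
    apply h
    unfold L3.mr
    apply Matrix.det_eq_zero_of_column_eq_zero ⟨b, hb⟩
    intro a
    simp only [Matrix.of_apply, YS]
    rw [if_neg]
    intro h1
    exact hcon ⟨_, h1⟩
  · intro b hb
    by_contra hcon
    apply h
    unfold L3.mr
    apply Matrix.det_eq_zero_of_row_eq_zero ⟨b, hb⟩
    intro a
    simp only [Matrix.of_apply, YS]
    rw [if_neg]
    intro h1
    exact hcon ⟨_, h1⟩

end XMU2

theorem MU2_pf (hGM : S_GM) : S_MU2 := by
  intro ι _ S S' hd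
  have hgen : ∀ (C : Finset ι) (ρ : ι → ι) (C' : Finset ι) (ρ' : ι → ι),
      L3.mr (YS S) C ρ * L3.mr (YS S') C' ρ' ∈ MA (S ∪ S') := by
    intro C ρ C' ρ'
    by_cases h0 : L3.mr (YS S) C ρ = 0
    · rw [h0, zero_mul]
      exact Submodule.zero_mem _
    by_cases h0' : L3.mr (YS S') C' ρ' = 0
    · rw [h0', mul_zero]
      exact Submodule.zero_mem _
    obtain ⟨hc, hr⟩ := XMU2.rowcol S C ρ h0
    obtain ⟨hc', hr'⟩ := XMU2.rowcol S' C' ρ' h0'
    have h1 := hGM ι (C ⊕ C') (S ∪ S')
      (Sum.elim (fun a : C => ρ (a : ι)) (fun a : C' => ρ' (a : ι)))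
      (Sum.elim (fun a : C => (a : ι)) (fun a : C' => (a : ι)))
    have h2 : (Matrix.of (fun a b : C ⊕ C' => YS (S ∪ S')
        ((Sum.elim (fun a : C => ρ (a : ι)) (fun a : C' => ρ' (a : ι))) a)
        ((Sum.elim (fun a : C => (a : ι)) (fun a : C' => (a : ι))) b))) =
        Matrix.fromBlocks (Matrix.of (fun (a b : C) => YS S (ρ a) b)) 0 0
          (Matrix.of (fun (a b : C') => YS S' (ρ' a) b)) := by
      ext1 a b
      rcases a with a | a <;> rcases b with b | b
      · simp only [Matrix.of_apply, Sum.elim_inl, Matrix.fromBlocks_apply₁₁, YS]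
        by_cases h3 : (ρ (a : ι), (b : ι)) ∈ S
        · rw [if_pos h3, if_pos (Finset.mem_union_left _ h3)]
        · rw [if_neg h3, if_neg]
          intro h4
          rcases Finset.mem_union.1 h4 with h5 | h5
          · exact h3 h5
          · obtain ⟨c, hc1⟩ := hr a a.2
            exact (hd _ hc1 _ h5).1 rfl
      · simp only [Matrix.of_apply, Sum.elim_inl, Sum.elim_inr, Matrix.fromBlocks_apply₁₂, YS,
          Matrix.zero_apply]
        rw [if_neg]
        intro h4
        rcases Finset.mem_union.1 h4 with h5 | h5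
        · obtain ⟨c, hc1⟩ := hc' b b.2
          exact (hd _ h5 _ hc1).2 rfl
        · obtain ⟨c, hc1⟩ := hr a a.2
          exact (hd _ hc1 _ h5).1 rfl
      · simp only [Matrix.of_apply, Sum.elim_inl, Sum.elim_inr, Matrix.fromBlocks_apply₂₁, YS,
          Matrix.zero_apply]
        rw [if_neg]
        intro h4
        rcases Finset.mem_union.1 h4 with h5 | h5
        · obtain ⟨c, hc1⟩ := hr' a a.2
          exact (hd _ h5 _ hc1).1 rfl
        · obtain ⟨c, hc1⟩ := hc b b.2
          exact (hd _ hc1 _ h5).2 rfl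
      · simp only [Matrix.of_apply, Sum.elim_inr, Matrix.fromBlocks_apply₂₂, YS]
        by_cases h3 : (ρ' (a : ι), (b : ι)) ∈ S'
        · rw [if_pos h3, if_pos (Finset.mem_union_right _ h3)]
        · rw [if_neg h3, if_neg]
          intro h4
          rcases Finset.mem_union.1 h4 with h5 | h5
          · obtain ⟨c, hc1⟩ := hr' a a.2
            exact (hd _ h5 _ hc1).1 rfl
          · exact h3 h5
    rw [h2, Matrix.det_fromBlocks_zero₂₁] at h1
    exact h1
  rw [Submodule.mul_le]
  intro m hm n hn
  unfold MA at hm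
  induction hm using Submodule.span_induction with
  | mem x hx =>
    obtain ⟨C, ρ, rfl⟩ := hx
    unfold MA at hn
    induction hn using Submodule.span_induction with
    | mem y hy =>
      obtain ⟨C', ρ', rfl⟩ := hy
      exact hgen C ρ C' ρ'
    | zero => rw [mul_zero]; exact Submodule.zero_mem _
    | add y z _ _ hy hz => rw [mul_add]; exact Submodule.add_mem _ hy hz
    | smul c y _ hy => rw [mul_smul_comm]; exact Submodule.smul_mem _ _ hy
  | zero => rw [zero_mul]; exact Submodule.zero_mem _
  | add y z _ _ hy hz => rw [add_mul]; exact Submodule.add_mem _ hy hz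
  | smul c y _ hy => rw [smul_mul_assoc]; exact Submodule.smul_mem _ _ hy

end Pool.Agent.Work.MP_ca14f8_co.AV
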