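import Pool.Agent.Work.MP_ca14f8_co.AV.Stmts
import Pool.Agent.Work.MP_ca14f8_co.Blow
import Pool.Agent.Work.MP_ca14f8_co.Sum

/-!
Item OD of the block AV: the landed inequality for permutations with at most one descent and
their inverses (copied from the hand-in OneDescentSums).
-/

set_option autoImplicit false
open Classical

namespace Pool.Agent.Work.MP_ca14f8_co.AV

namespace XOD

theorem Ups_Gr {n m : ℕ} {w : Equiv.Perm (Fin n)} (hw : Gr m w) : Ups w = V m w := by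
  unfold Ups
  rw [N_Gr m _ w hw rfl]
  have : ((inv w).card.factorial : ℚ) ≠ 0 := by positivity
  field_simp

theorem Bl_inv {n : ℕ} (k : ℕ) (w : Equiv.Perm (Fin n)) : Bl k w⁻¹ = (Bl k w)⁻¹ := by
  rw [eq_inv_iff_mul_eq_one]
  ext x
  obtain ⟨⟨i, s⟩, rfl⟩ := finProdFinEquiv.surjective x
  rw [Equiv.Perm.mul_apply, Bl_apply, Bl_apply]
  simp

theorem oneD {n : ℕ} (k : ℕ) (v : Equiv.Perm (Fin n)) (hv : OneD v) :
    Ups v ^ (k ^ 2) ≤ Ups (Bl k v) := by
  obtain ⟨m, h⟩ := hv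
  have h1 : Gr m v := h
  rw [Ups_Gr h1, Ups_Gr (Gr_Bl k h1)]
  exact V_Bl_ge k h1

end XOD

theorem OD_pf : S_OD := by
  intro n k v hv
  rcases hv with hv | hv
  · exact XOD.oneD k v hv
  · have h := XOD.oneD k v⁻¹ hv
    rw [XOD.Bl_inv, Ups_inverse, Ups_inverse] at h
    exact h

end Pool.Agent.Work.MP_ca14f8_co.AV
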