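import Pool.Agent.Work.MP_ca14f8_co.AV.Stmts

/-!
The sites of adjacent cells, block AV of MP_ca14f8_co.
-/

set_option autoImplicit false
open Classical

namespace Pool.Agent.Work.MP_ca14f8_co.AV

namespace XP1

variable {n : ℕ}

theorem ss_iff (w : Equiv.Perm (Fin n)) (p : Fin n × Fin n) (i : Fin n) :
    i ∈ SS w p ↔ i < p.1 ∧ p.1 < p.2 ∧ w i < w p.2 ∧ w p.2 < w p.1 := by
  rw [mem_SS, mem_fam]

theorem vi_iff (w : Equiv.Perm (Fin n)) (p : Fin n × Fin n) :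
    p ∈ Vi w ↔ ∃ i, i < p.1 ∧ p.1 < p.2 ∧ w i < w p.2 ∧ w p.2 < w p.1 := by
  rw [mem_Vi]
  simp only [mem_fam]

/-- Same column. -/
theorem col (w : Equiv.Perm (Fin n)) (hw : Av w) (j j' a : Fin n) (hjj : j ≤ j')
    (hp : (j, a) ∈ Vi w) (hq : (j', a) ∈ Vi w) :
    SS w (j, a) ⊆ SS w (j', a) ∧
      ∀ x ∈ SS w (j, a), ∀ y ∈ SS w (j', a), y ∉ SS w (j, a) → SE w x y := by
  obtain ⟨i, h1, h2, h3, h4⟩ := (vi_iff w _).mp hp
  obtain ⟨i', h1', h2', h3', h4'⟩ := (vi_iff w _).mp hq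
  simp only at h1 h2 h3 h4 h1' h2' h3' h4'
  refine ⟨?_, ?_⟩
  · intro x hx
    rw [ss_iff] at hx ⊢
    exact ⟨lt_of_lt_of_le hx.1 hjj, h2', hx.2.2.1, h4'⟩
  · intro x hx y hy hyn
    rw [ss_iff] at hx hy hyn
    simp only at hx hy hyn
    have hjy : j ≤ y := by
      by_contra hc
      exact hyn ⟨not_le.mp hc, h2, hy.2.2.1, h4⟩
    have hjy2 : j < y := by
      refine lt_of_le_of_ne hjy ?_
      intro he
      rw [← he] at hy
      exact absurd hy.2.2.1 (not_lt.mpr h4.le)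
    refine ⟨lt_trans hx.1 hjy2, ?_⟩
    by_contra hc
    have hyx : w y < w x := by
      refine lt_of_le_of_ne (not_lt.mp hc) ?_
      intro he
      have := w.injective he
      rw [this] at hjy2
      exact absurd hx.1 (not_lt.mpr hjy2.le)
    rcases lt_trichotomy (w j) (w j') with h | h | h
    · exact hw.2.1 x j y j' a hx.1 hjy2 hy.1 hy.2.1 ⟨hyx, hx.2.2.1, h4, h⟩
    · have := w.injective h
      rw [← this] at hy
      exact absurd hy.1 (not_lt.mpr hjy2.le)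
    · exact hw.1 x j j' a hx.1 (lt_trans hjy2 hy.1) hy.2.1 ⟨hx.2.2.1, h4', h⟩

/-- Same row. -/
theorem row (w : Equiv.Perm (Fin n)) (hw : Av w) (j a b : Fin n) (hab : w a ≤ w b)
    (hp : (j, a) ∈ Vi w) (hq : (j, b) ∈ Vi w) :
    SS w (j, a) ⊆ SS w (j, b) ∧
      ∀ x ∈ SS w (j, a), ∀ y ∈ SS w (j, b), y ∉ SS w (j, a) → SE w x y := by
  obtain ⟨i, h1, h2, h3, h4⟩ := (vi_iff w _).mp hp
  obtain ⟨i', h1', h2', h3', h4'⟩ := (vi_iff w _).mp hq
  simp only at h1 h2 h3 h4 h1' h2' h3' h4'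
  refine ⟨?_, ?_⟩
  · intro x hx
    rw [ss_iff] at hx ⊢
    exact ⟨hx.1, h2', lt_of_lt_of_le hx.2.2.1 hab, h4'⟩
  · intro x hx y hy hyn
    rw [ss_iff] at hx hy hyn
    simp only at hx hy hyn
    have hay : w a ≤ w y := by
      by_contra hc
      exact hyn ⟨hy.1, h2, not_le.mp hc, h4⟩
    have hay2 : w a < w y := by
      refine lt_of_le_of_ne hay ?_
      intro he
      have := w.injective he
      rw [← this] at hy
      exact absurd hy.1 (not_lt.mpr h2.le)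
    refine ⟨?_, lt_trans hx.2.2.1 hay2⟩
    by_contra hc
    have hyx : y < x := by
      refine lt_of_le_of_ne (not_lt.mp hc) ?_
      intro he
      rw [he] at hay2
      exact absurd hx.2.2.1 (not_lt.mpr hay2.le)
    rcases lt_trichotomy a b with h | h | h
    · exact hw.2.2 y x j a b hyx hx.1 h2 h ⟨hx.2.2.1, hay2, hy.2.2.1, h4'⟩
    · rw [← h] at hy
      exact absurd hay2 (not_lt.mpr hy.2.2.1.le)
    · exact hw.1 x j b a hx.1 h2' h ⟨hx.2.2.1, lt_trans hay2 hy.2.2.1, h4'⟩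

end XP1

theorem P1_pf : S_P1 := by
  rintro n w hw ⟨j, a⟩ hp ⟨j', a'⟩ hq h
  rcases h with h | h
  · simp only at h
    subst h
    rcases le_total (w a) (w a') with h2 | h2
    · exact Or.inl (XP1.row w hw j a a' h2 hp hq)
    · exact Or.inr (XP1.row w hw j a' a h2 hq hp)
  · simp only at h
    subst h
    rcases le_total j j' with h2 | h2
    · exact Or.inl (XP1.col w hw j j' a h2 hp hq)
    · exact Or.inr (XP1.col w hw j' j a h2 hq hp)

end Pool.Agent.Work.MP_ca14f8_co.AV
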