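import Pool.Agent.Work.MP_ca14f8_co.AV.Stmts

/-!
The common sites of a component, block AV of MP_ca14f8_co.
-/

set_option autoImplicit false
open Classical

namespace Pool.Agent.Work.MP_ca14f8_co.AV

theorem P2_pf (hP1 : S_P1) : S_P2 := by
  intro n w hw K hK
  obtain ⟨c0, hc0, hmin⟩ := Finset.exists_min_image K (fun p => (SS w p).card) hK.ne
  set P : Fin n × Fin n → Prop := fun p =>
    SS w c0 ⊆ SS w p ∧ ∀ y ∈ SS w p, y ∉ SS w c0 → ∀ x ∈ SS w c0, SE w x y with hP
  have hall : ∀ p ∈ K, P p := by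
    by_contra hne
    have hne2 : ∃ q ∈ K, ¬ P q := by
      by_contra h
      exact hne (fun p hp => by
        by_contra h2
        exact h ⟨p, hp, h2⟩)
    obtain ⟨p, hp, q, hq, hPp, hPq, hRC⟩ := hK.conn P
      ⟨c0, hc0, Finset.Subset.refl _, fun y hy hyn => absurd hy hyn⟩ hne2
    apply hPq
    rcases hP1 n w hw p (hK.sub hp) q (hK.sub hq) hRC with ⟨h1, h2⟩ | ⟨h1, h2⟩
    · refine ⟨hPp.1.trans h1, ?_⟩
      intro y hy hyn x hx
      by_cases hyp : y ∈ SS w p
      · exact hPp.2 y hyp hyn x hx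
      · exact h2 x (hPp.1 hx) y hy hyp
    · have hsub : SS w c0 ⊆ SS w q := by
        by_contra hns
        rw [Finset.not_subset] at hns
        obtain ⟨s, hs, hsq⟩ := hns
        have hlt : SS w q ⊂ SS w c0 := by
          rw [Finset.ssubset_iff_of_subset]
          · exact ⟨s, hs, hsq⟩
          · intro x hx
            by_contra hxn
            have e1 : SE w x s := h2 x hx s (hPp.1 hs) hsq
            have e2 : SE w s x := hPp.2 x (h1 hx) hxn s hs
            exact absurd e1.1 (not_lt.mpr e2.1.le)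
        exact absurd (Finset.card_lt_card hlt) (not_lt.mpr (hmin q hq))
      refine ⟨hsub, ?_⟩
      intro y hy hyn x hx
      exact hPp.2 y (h1 hy) hyn x hx
  refine ⟨SS w c0, ?_, ⟨c0, hc0, rfl⟩, fun p hp => (hall p hp).1, fun p hp => (hall p hp).2⟩
  have := hK.sub hc0
  rw [mem_Vi] at this
  obtain ⟨i, hi⟩ := this
  exact ⟨i, (mem_SS w c0 i).mpr hi⟩

end Pool.Agent.Work.MP_ca14f8_co.AV
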