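import Pool.Agent.Work.MP_ca14f8_co.AV.Stmts

/-!
# Block AV, items P4 and P6: the letters of a component
-/

set_option autoImplicit false
open Classical

namespace Pool.Agent.Work.MP_ca14f8_co.AV

theorem P4_pf : S_P4 := by
  intro n w K S0 hB x hx p hp
  have h := (mem_fam w x p).1 ((mem_SS w p x).1 (hB.all p hp hx))
  obtain ⟨h1, h2, h3, h4⟩ := h
  exact ⟨⟨h1, lt_trans h3 h4⟩, ⟨lt_trans h1 h2, h3⟩⟩

namespace XP46

theorem see {n : ℕ} {w : Equiv.Perm (Fin n)} {K : Finset (Fin n × Fin n)} {S0 : Finset (Fin n)}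
    (hB : Base w K S0) {x : Fin n} (hx : x ∈ S0) {p : Fin n × Fin n} (hp : p ∈ K) :
    x < p.1 ∧ p.1 < p.2 ∧ w x < w p.2 ∧ w p.2 < w p.1 :=
  (mem_fam w x p).1 ((mem_SS w p x).1 (hB.all p hp hx))

end XP46

theorem P6_pf : S_P6 := by
  intro n w K S0 hA hC hB
  obtain ⟨x, hx⟩ := hB.ne
  refine ⟨?_, ?_, ?_, ?_⟩
  · intro p hp q hq hpq
    by_contra hcon
    have h1 : w q.1 < w p.1 := by
      rcases lt_trichotomy (w p.1) (w q.1) with h | h | h
      · exact absurd h hcon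
      · exact absurd (w.injective h) (ne_of_lt hpq)
      · exact h
    obtain ⟨p1, p2, p3, p4⟩ := XP46.see hB hx hp
    obtain ⟨q1, q2, q3, q4⟩ := XP46.see hB hx hq
    exact hA.1 x p.1 q.1 q.2 p1 hpq q2 ⟨q3, q4, h1⟩
  · intro p hp q hq hpq
    by_contra hcon
    have h1 : w q.2 < w p.2 := by
      rcases lt_trichotomy (w p.2) (w q.2) with h | h | h
      · exact absurd h hcon
      · exact absurd (w.injective h) (ne_of_lt hpq)
      · exact h
    obtain ⟨p1, p2, p3, p4⟩ := XP46.see hB hx hp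
    obtain ⟨q1, q2, q3, q4⟩ := XP46.see hB hx hq
    exact hA.1 x p.1 p.2 q.2 p1 p2 hpq ⟨q3, h1, p4⟩
  · intro p hp q hq hpq
    obtain ⟨p1, p2, p3, p4⟩ := XP46.see hB hx hp
    obtain ⟨q1, q2, q3, q4⟩ := XP46.see hB hx hq
    rw [hpq] at p2 p4
    exact hA.1 x q.1 q.2 p.2 q1 q2 p2 ⟨p3, p4, q4⟩
  · rintro l l' ⟨p, hp, hl⟩ ⟨q, hq, hl'⟩ hll hw
    obtain ⟨p1, p2, p3, p4⟩ := XP46.see hB hx hp
    obtain ⟨q1, q2, q3, q4⟩ := XP46.see hB hx hq
    have hxl : w x < w l' := by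
      rcases hl' with h | h
      · rw [h]
        exact lt_trans q3 q4
      · rw [h]
        exact q3
    rcases hl with h | h
    · rcases hl' with h' | h'
      · exfalso
        rw [h] at hll hw
        rw [h'] at hll hw
        exact hA.1 x p.1 q.1 q.2 p1 hll q2 ⟨q3, q4, hw⟩
      · have hf : (l, l') ∈ fam w x := by
          rw [mem_fam]
          refine ⟨?_, hll, hxl, hw⟩
          rw [h]
          exact p1
        exact hC.closed p hp (l, l') ((mem_Vi w _).2 ⟨x, hf⟩) (Or.inl h.symm)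
    · exfalso
      rw [h] at hll hw
      exact hA.1 x p.1 p.2 l' p1 p2 hll ⟨hxl, hw, p4⟩

end Pool.Agent.Work.MP_ca14f8_co.AV
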