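import Pool.Agent.Work.MP_ca14f8_co.AV.Stmts

/-!
The other sites are letters of the component, block AV of MP_ca14f8_co.
-/

set_option autoImplicit false
open Classical

namespace Pool.Agent.Work.MP_ca14f8_co.AV

theorem P5_pf : S_P5 := by
  intro n w K S0 hK hB p hp y hy hy0
  obtain ⟨c0, hc0, hS0⟩ := hB.ex
  obtain ⟨x, hx⟩ := hB.ne
  obtain ⟨a, ha, b, hb, hya, hyb, hRC⟩ := hK.conn (fun r => y ∉ SS w r)
    ⟨c0, hc0, by rw [← hS0]; exact hy0⟩ ⟨p, hp, not_not.mpr hy⟩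
  have hyb' : y ∈ SS w b := not_not.mp hyb
  have hxy : SE w x y := hB.se b hb y hyb' hy0 x hx
  have hxa : x ∈ SS w a := hB.all a ha hx
  rw [mem_SS, mem_fam] at hyb' hxa
  have hya' : ¬ (y < a.1 ∧ a.1 < a.2 ∧ w y < w a.2 ∧ w a.2 < w a.1) := by
    intro h
    exact hya ((mem_SS w a y).mpr ((mem_fam w y a).mpr h))
  rcases hRC with h | h
  · -- same row
    have h1 : y < a.1 := by rw [h]; exact hyb'.1
    have h2 : w a.2 ≤ w y := by
      by_contra hc
      exact hya' ⟨h1, hxa.2.1, not_le.mp hc, hxa.2.2.2⟩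
    have h3 : w a.2 < w y := by
      refine lt_of_le_of_ne h2 ?_
      intro he
      have := w.injective he
      rw [← this] at h1
      exact absurd h1 (not_lt.mpr hxa.2.1.le)
    have h4 : (y, a.2) ∈ Vi w := by
      rw [mem_Vi]
      refine ⟨x, ?_⟩
      rw [mem_fam]
      exact ⟨hxy.1, lt_trans h1 hxa.2.1, hxa.2.2.1, h3⟩
    exact ⟨(y, a.2), hK.closed a ha _ h4 (Or.inr rfl), Or.inl rfl⟩
  · -- same column
    have h1 : w y < w a.2 := by rw [h]; exact hyb'.2.2.1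
    have h2 : a.1 ≤ y := by
      by_contra hc
      exact hya' ⟨not_le.mp hc, hxa.2.1, h1, hxa.2.2.2⟩
    have h3 : a.1 < y := by
      refine lt_of_le_of_ne h2 ?_
      intro he
      rw [← he] at h1
      exact absurd h1 (not_lt.mpr hxa.2.2.2.le)
    have h4 : (a.1, y) ∈ Vi w := by
      rw [mem_Vi]
      refine ⟨x, ?_⟩
      rw [mem_fam]
      exact ⟨hxa.1, h3, hxy.2, lt_trans h1 hxa.2.2.2⟩
    exact ⟨(a.1, y), hK.closed a ha _ h4 (Or.inl rfl), Or.inr rfl⟩

end Pool.Agent.Work.MP_ca14f8_co.AV
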