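import Pool.Agent.Work.MP_ca14f8_co.AV.Stmts

/-!
One descent or inverse: the dichotomy, block AV of MP_ca14f8_co.
-/

set_option autoImplicit false
open Classical

namespace Pool.Agent.Work.MP_ca14f8_co.AV

theorem P7_pf (hP4 : S_P4) (hP6 : S_P6) : S_P7 := by
  intro n w K S0 hw hK hB
  obtain ⟨hrow, hcol, hne, hcell⟩ := hP6 n w K S0 hw hK hB
  have hmem : ∀ p ∈ K, p.1 < p.2 ∧ w p.2 < w p.1 := by
    intro p hp
    have := hK.sub hp
    rw [mem_Vi] at this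
    obtain ⟨i, hi⟩ := this
    rw [mem_fam] at hi
    exact ⟨hi.2.1, hi.2.2.2⟩
  -- non strict monotonicity
  have hrow' : ∀ p ∈ K, ∀ q ∈ K, p.1 ≤ q.1 → w p.1 ≤ w q.1 := by
    intro p hp q hq h
    rcases h.lt_or_eq with h | h
    · exact (hrow p hp q hq h).le
    · rw [h]
  have hcol' : ∀ p ∈ K, ∀ q ∈ K, p.2 ≤ q.2 → w p.2 ≤ w q.2 := by
    intro p hp q hq h
    rcases h.lt_or_eq with h | h
    · exact (hcol p hp q hq h).le
    · rw [h]
  have hcolr : ∀ p ∈ K, ∀ q ∈ K, w p.2 < w q.2 → p.2 < q.2 := by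
    intro p hp q hq h
    by_contra hc
    exact absurd h (not_lt.mpr (hcol' q hq p hp (not_lt.mp hc)))
  have hrowr : ∀ p ∈ K, ∀ q ∈ K, w p.1 < w q.1 → p.1 < q.1 := by
    intro p hp q hq h
    by_contra hc
    exact absurd h (not_lt.mpr (hrow' q hq p hp (not_lt.mp hc)))
  by_contra hcon
  rw [not_or] at hcon
  obtain ⟨hc1, hc2⟩ := hcon
  push Not at hc1 hc2
  obtain ⟨p1, hp1, q1, hq1, hG⟩ := hc1
  obtain ⟨p2, hp2, q2, hq2, hI⟩ := hc2
  -- extreme cells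
  obtain ⟨y1, hy1, hy1min⟩ := Finset.exists_min_image K (fun p => p.2) hK.ne
  obtain ⟨ys, hys, hysmax⟩ := Finset.exists_max_image K (fun p => p.2) hK.ne
  obtain ⟨x1, hx1, hx1min⟩ := Finset.exists_min_image K (fun p => p.1) hK.ne
  obtain ⟨xr, hxr, hxrmax⟩ := Finset.exists_max_image K (fun p => p.1) hK.ne
  have hyx : y1.2 < xr.1 := by
    have h1 : y1.2 ≤ xr.1 := ((hy1min q1 hq1).trans hG).trans (hxrmax p1 hp1)
    exact lt_of_le_of_ne h1 (fun h => hne xr hxr y1 hy1 h.symm)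
  have hxy : w x1.1 < w ys.2 := by
    have h1 : w x1.1 ≤ w p2.1 := hrow' x1 hx1 p2 hp2 (hx1min p2 hp2)
    have h2 : w q2.2 ≤ w ys.2 := hcol' q2 hq2 ys hys (hysmax q2 hq2)
    have h3 : w x1.1 ≤ w ys.2 := (h1.trans hI).trans h2
    refine lt_of_le_of_ne h3 ?_
    intro h
    exact hne x1 hx1 ys hys (w.injective h)
  by_cases hA : ∃ x ∈ K, x.1 < y1.2 ∧ w ys.2 < w x.1
  · obtain ⟨x, hx, h1, h2⟩ := hA
    have e1 : x1.1 < x.1 := hrowr x1 hx1 x hx (lt_trans hxy h2)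
    have e2 : xr.1 < ys.2 := lt_of_lt_of_le (hmem xr hxr).1 (hysmax xr hxr)
    have e3 : w y1.2 < w x1.1 := lt_of_le_of_lt (hcol' y1 hy1 x1 hx1 (hy1min x1 hx1)) (hmem x1 hx1).2
    have e4 : w x.1 < w xr.1 := hrow x hx xr hxr (lt_trans h1 hyx)
    exact hw.2.1 x1.1 x.1 y1.2 xr.1 ys.2 e1 h1 hyx e2 ⟨e3, hxy, h2, e4⟩
  · push Not at hA
    -- the last row before y1
    have hne1 : (K.filter (fun p => p.1 < y1.2)).Nonempty :=
      ⟨y1, Finset.mem_filter.mpr ⟨hy1, (hmem y1 hy1).1⟩⟩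
    obtain ⟨as, has, hasmax⟩ := Finset.exists_max_image _ (fun p => p.1) hne1
    rw [Finset.mem_filter] at has
    have hw1 : w as.1 < w ys.2 := by
      refine lt_of_le_of_ne (hA as has.1 has.2) ?_
      intro h
      exact hne as has.1 ys hys (w.injective h)
    have hne2 : (K.filter (fun p => w as.1 < w p.2)).Nonempty :=
      ⟨ys, Finset.mem_filter.mpr ⟨hys, hw1⟩⟩
    obtain ⟨bs, hbs, hbsmin⟩ := Finset.exists_min_image _ (fun p => p.1) hne2
    rw [Finset.mem_filter] at hbs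
    have hab : as.1 < bs.1 := hrowr as has.1 bs hbs.1 (lt_trans hbs.2 (hmem bs hbs.1).2)
    have hyb : y1.2 < bs.1 := by
      by_contra hc
      have h1 : bs.1 < y1.2 :=
        lt_of_le_of_ne (not_lt.mp hc) (fun h => hne bs hbs.1 y1 hy1 h)
      exact absurd hab (not_lt.mpr (hasmax bs (Finset.mem_filter.mpr ⟨hbs.1, h1⟩)))
    obtain ⟨p, hp, q, hq, h1, h2, hRC⟩ := hK.conn (fun p => p.1 < bs.1)
      ⟨as, has.1, hab⟩ ⟨bs, hbs.1, lt_irrefl _⟩
    have h2' : bs.1 ≤ q.1 := not_lt.mp h2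
    have hpq : p.2 = q.2 := by
      rcases hRC with h | h
      · rw [h] at h1
        exact absurd h1 h2
      · exact h
    have e1 : bs.1 < p.2 := by
      rw [hpq]
      exact lt_of_le_of_lt h2' (hmem q hq).1
    have e2 : w p.2 < w as.1 := by
      by_contra hc
      have h3 : w as.1 < w p.2 := by
        refine lt_of_le_of_ne (not_lt.mp hc) ?_
        intro h
        exact hne as has.1 p hp (w.injective h)
      exact absurd h1 (not_lt.mpr (hbsmin p (Finset.mem_filter.mpr ⟨hp, h3⟩)))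
    have e3 : p.2 < bs.2 := hcolr p hp bs hbs.1 (lt_trans e2 hbs.2)
    have e4 : w y1.2 < w p.2 := hcol y1 hy1 p hp (lt_trans hyb e1)
    exact hw.2.2 as.1 y1.2 bs.1 p.2 bs.2 has.2 hyb e1 e3 ⟨e4, e2, hbs.2, (hmem bs hbs.1).2⟩

end Pool.Agent.Work.MP_ca14f8_co.AV
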