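import Pool.Agent.Work.MP_ca14f8_co.AV.Stmts

/-!
# Item RL of block AV: relabelling of a family
-/

set_option autoImplicit false
open Classical

namespace Pool.Agent.Work.MP_ca14f8_co.AV

/-- Item [RL] -/
theorem RL_pf (hMAE : S_MAE) (hMAI : S_MAI) : S_RL := by
  intro ι κ ι' κ' _ _ _ _ F F' φ ψ hφ hψ hF hE
  set A : MvPolynomial (ι × ι) ℚ →ₐ[ℚ] MvPolynomial (ι' × ι') ℚ :=
    MvPolynomial.rename (Prod.map φ φ) with hA
  have hinj : Function.Injective A.toLinearMap := by
    have h1 : Function.Injective (MvPolynomial.rename (R := ℚ) (Prod.map φ φ)) :=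
      MvPolynomial.rename_injective _ (hφ.prodMap hφ)
    exact h1
  have e1 : LF F' = ∏ i : κ, MA (F' (ψ i)) := by
    unfold LF
    symm
    refine Fintype.prod_of_injective ψ hψ (fun i => MA (F' (ψ i))) (fun i' => MA (F' i')) ?_ ?_
    · intro i' hi'
      show MA (F' i') = 1
      rw [hE i' hi']
      exact (hMAE ι').1
    · intro i
      rfl
  have e2 : LF F' = (LF F).map A.toLinearMap := by
    rw [e1]
    have h1 : ∀ i : κ, MA (F' (ψ i)) = Submodule.mapHom A (MA (F i)) := by
      intro i
      have := hMAI ι ι' φ (F i) (F' (ψ i)) hφ (hF i)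
      rw [this]
      rfl
    have h2 : (LF F).map A.toLinearMap = Submodule.mapHom A (LF F) := rfl
    rw [h2]
    unfold LF
    rw [map_prod]
    exact Finset.prod_congr rfl fun i _ => h1 i
  rw [e2]
  exact (LinearEquiv.finrank_eq (Submodule.equivMapOfInjective A.toLinearMap hinj (LF F))).symm

end Pool.Agent.Work.MP_ca14f8_co.AV
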