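import Pool.Agent.Work.MP_ca14f8_co.AV.Stmts

/-!
# Block AV, item ST: standardisation
-/

set_option autoImplicit false
open Classical

namespace Pool.Agent.Work.MP_ca14f8_co.AV

theorem ST_pf : S_ST := by
  intro N f hf
  have hm : StrictMono (f ∘ Tuple.sort f) :=
    (Tuple.monotone_sort f).strictMono_of_injective (hf.comp (Tuple.sort f).injective)
  refine ⟨(Tuple.sort f)⁻¹, fun a b => ?_⟩
  have h := hm.lt_iff_lt (a := (Tuple.sort f)⁻¹ a) (b := (Tuple.sort f)⁻¹ b)
  rw [← h]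
  show f (Tuple.sort f ((Tuple.sort f)⁻¹ a)) < f (Tuple.sort f ((Tuple.sort f)⁻¹ b)) ↔ f a < f b
  simp only [Equiv.Perm.coe_inv, Equiv.apply_symm_apply]

end Pool.Agent.Work.MP_ca14f8_co.AV
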