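import Pool.Agent.Work.MP_ca14f8_co.AV.Stmts
import Pool.Agent.Work.MP_ca14f8_co.L3.All

/-!
Item UD of the block AV of MP_ca14f8_co: the bridge to the principal evaluation.
-/

set_option autoImplicit false
open Classical

namespace Pool.Agent.Work.MP_ca14f8_co.AV

/-- The formula for the principal evaluation. -/
theorem Ups_eq_finrank (n : ℕ) (w : Equiv.Perm (Fin n)) :
    Ups w = ((Module.finrank ℚ (L3.LLs w) : ℕ) : ℚ) := by
  apply le_antisymm (L3.LE_holds n w)
  have : FiniteDimensional ℚ (L3.EE w 0 0) := (L3.UE_holds n w).1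
  have h4 : Module.finrank ℚ (L3.LLs w) ≤ Module.finrank ℚ (L3.EE w 0 0) :=
    Submodule.finrank_mono (L3.ME_pf (L3.M1_pf L3.R1_pf) n w)
  exact (by exact_mod_cast h4 : ((Module.finrank ℚ (L3.LLs w) : ℕ) : ℚ) ≤
    ((Module.finrank ℚ (L3.EE w 0 0) : ℕ) : ℚ)).trans (L3.UE_holds n w).2

theorem UD_pf (hA1 : S_A1) (hFB : S_FB) (hRL : S_RL) : S_UD := by
  intro n w
  constructor
  · intro k
    rw [Ups_eq_finrank, hA1]
    have h1 := hRL (Fin n × Fin k) (Fin n × Fin k) (Fin (n * k)) (Fin (n * k))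
      (blw k (fam w)) (fam (Bl k w)) (fun x => finProdFinEquiv x) (fun x => finProdFinEquiv x)
      (Equiv.injective _) (Equiv.injective _) ?_ ?_
    · rw [h1]
      rfl
    · rintro ⟨i, r⟩ ⟨a, b⟩
      obtain ⟨⟨j, s⟩, rfl⟩ := (finProdFinEquiv (m := n) (n := k)).surjective a
      obtain ⟨⟨q, t⟩, rfl⟩ := (finProdFinEquiv (m := n) (n := k)).surjective b
      rw [hFB]
      constructor
      · intro h
        refine ⟨((j, s), (q, t)), ?_, rfl⟩
        simp only [blw, Finset.mem_filter, Finset.mem_univ, true_and]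
        exact h
      · rintro ⟨⟨⟨j', s'⟩, ⟨q', t'⟩⟩, hab, he⟩
        simp only [Prod.mk.injEq, EmbeddingLike.apply_eq_iff_eq] at he
        simp only [blw, Finset.mem_filter, Finset.mem_univ, true_and] at hab
        rw [he.1.1, he.2.1]
        exact hab
    · intro i' hi'
      exact absurd ((finProdFinEquiv (m := n) (n := k)).surjective i') (fun ⟨x, hx⟩ =>
        hi' ⟨x, hx⟩)
  · rw [Ups_eq_finrank, hA1]
    have h1 := hRL (Fin n) (Fin n) (Fin n × Fin 1) (Fin n × Fin 1)
      (fam w) (blw 1 (fam w)) (fun x => (x, 0)) (fun x => (x, 0))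
      (fun x y h => (Prod.mk.inj h).1) (fun x y h => (Prod.mk.inj h).1) ?_ ?_
    · rw [← h1]
      rfl
    · rintro i ⟨⟨j, s⟩, ⟨q, t⟩⟩
      simp only [blw, Finset.mem_filter, Finset.mem_univ, true_and]
      constructor
      · intro h
        exact ⟨(j, q), h, by rw [Subsingleton.elim s 0, Subsingleton.elim t 0]⟩
      · rintro ⟨⟨j', q'⟩, hab, he⟩
        simp only [Prod.mk.injEq] at he
        rw [he.1.1, he.2.1]
        exact hab
    · rintro ⟨i', r⟩ hi'
      exact absurd ⟨i', by rw [Subsingleton.elim r 0]⟩ hi'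

end Pool.Agent.Work.MP_ca14f8_co.AV
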