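import Pool.Agent.Work.MP_ca14f8_co.AV.I_A1
import Pool.Agent.Work.MP_ca14f8_co.AV.I_CL
import Pool.Agent.Work.MP_ca14f8_co.AV.I_CO
import Pool.Agent.Work.MP_ca14f8_co.AV.I_DM
import Pool.Agent.Work.MP_ca14f8_co.AV.I_FB
import Pool.Agent.Work.MP_ca14f8_co.AV.I_FIN
import Pool.Agent.Work.MP_ca14f8_co.AV.I_FM
import Pool.Agent.Work.MP_ca14f8_co.AV.I_FS
import Pool.Agent.Work.MP_ca14f8_co.AV.I_GM
import Pool.Agent.Work.MP_ca14f8_co.AV.I_MAE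
import Pool.Agent.Work.MP_ca14f8_co.AV.I_MAI
import Pool.Agent.Work.MP_ca14f8_co.AV.I_MU1
import Pool.Agent.Work.MP_ca14f8_co.AV.I_MU2
import Pool.Agent.Work.MP_ca14f8_co.AV.I_OD
import Pool.Agent.Work.MP_ca14f8_co.AV.I_P1
import Pool.Agent.Work.MP_ca14f8_co.AV.I_P2
import Pool.Agent.Work.MP_ca14f8_co.AV.I_P46
import Pool.Agent.Work.MP_ca14f8_co.AV.I_P5
import Pool.Agent.Work.MP_ca14f8_co.AV.I_P7
import Pool.Agent.Work.MP_ca14f8_co.AV.I_RD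
import Pool.Agent.Work.MP_ca14f8_co.AV.I_RL
import Pool.Agent.Work.MP_ca14f8_co.AV.I_ST
import Pool.Agent.Work.MP_ca14f8_co.AV.I_UD

/-!
Assembly of the block AV of MP_ca14f8_co.
-/

set_option autoImplicit false
open Classical

namespace Pool.Agent.Work.MP_ca14f8_co.AV

theorem RL_holds : S_RL := RL_pf MAE_pf (MAI_pf GM_pf)

theorem UD_holds : S_UD := UD_pf A1_pf FB_pf RL_holds

theorem CL_holds : S_CL := CL_pf CO_pf (P2_pf P1_pf) P4_pf P5_pf P6_pf (P7_pf P4_pf P6_pf) ST_pf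

theorem DM_holds : S_DM := DM_pf (MU1_pf GM_pf) (MU2_pf GM_pf) FS_pf FM_pf

theorem ONE_holds : S_ONE := ONE_pf CL_holds (RD_pf RL_holds) UD_holds OD_pf

theorem THM_holds : S_THM := THM_pf (ALL_pf CO_pf DM_holds MAE_pf ONE_holds) UD_holds

end Pool.Agent.Work.MP_ca14f8_co.AV
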