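import Pool.Agent.Work.MP_ca14f8_co.L3.Defs

/-!
Definitions for the block AV of MP_ca14f8_co: the inequality with the exponent `k ^ 2` for all
permutations which avoid the patterns 1432, 24153 and 31524.
-/

set_option autoImplicit false
open Classical

namespace Pool.Agent.Work.MP_ca14f8_co.AV

/-! ### Algebra -/

/-- The generic matrix supported on the set of cells `S`. -/
noncomputable def YS {ι : Type} [DecidableEq ι] (S : Finset (ι × ι)) :
    Matrix ι ι (MvPolynomial (ι × ι) ℚ) :=
  Matrix.of (fun a b => if (a, b) ∈ S then MvPolynomial.X (a, b) else 0)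

/-- The span of all the minors of `YS S` (columns `C`, rows `ρ q`, `q ∈ C`). -/
noncomputable def MA {ι : Type} [DecidableEq ι] (S : Finset (ι × ι)) :
    Submodule ℚ (MvPolynomial (ι × ι) ℚ) :=
  Submodule.span ℚ {f | ∃ (C : Finset ι) (ρ : ι → ι), f = L3.mr (YS S) C ρ}

/-- The span of the products of one minor of `YS (F i)` for each `i`. -/
noncomputable def LF {ι κ : Type} [DecidableEq ι] [Fintype κ] (F : κ → Finset (ι × ι)) :
    Submodule ℚ (MvPolynomial (ι × ι) ℚ) :=
  ∏ i : κ, MA (F i)

/-- The blow-up of a family of sets of cells. -/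
noncomputable def blw {ι κ : Type} [Fintype ι] [DecidableEq ι] (k : ℕ)
    (F : κ → Finset (ι × ι)) : κ × Fin k → Finset ((ι × Fin k) × (ι × Fin k)) :=
  fun x => Finset.univ.filter (fun p => (p.1.1, p.2.1) ∈ F x.1)

/-- The dimension of the space of the blow-up. -/
noncomputable def DD {ι κ : Type} [Fintype ι] [DecidableEq ι] [Fintype κ] (k : ℕ)
    (F : κ → Finset (ι × ι)) : ℕ :=
  Module.finrank ℚ (LF (blw k F))

/-! ### Combinatorics -/

variable {n : ℕ}

/-- The cells which the site `i` sees (the patterns 132 with first letter `i`). -/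
noncomputable def fam (w : Equiv.Perm (Fin n)) (i : Fin n) : Finset (Fin n × Fin n) :=
  Finset.univ.filter (fun p => i < p.1 ∧ p.1 < p.2 ∧ w i < w p.2 ∧ w p.2 < w p.1)

theorem mem_fam (w : Equiv.Perm (Fin n)) (i : Fin n) (p : Fin n × Fin n) :
    p ∈ fam w i ↔ i < p.1 ∧ p.1 < p.2 ∧ w i < w p.2 ∧ w p.2 < w p.1 := by
  simp [fam]

/-- The visible cells. -/
noncomputable def Vi (w : Equiv.Perm (Fin n)) : Finset (Fin n × Fin n) :=
  Finset.univ.filter (fun p => ∃ i, p ∈ fam w i)

theorem mem_Vi (w : Equiv.Perm (Fin n)) (p : Fin n × Fin n) : p ∈ Vi w ↔ ∃ i, p ∈ fam w i := by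
  simp [Vi]

/-- The sites which see the cell `p`. -/
noncomputable def SS (w : Equiv.Perm (Fin n)) (p : Fin n × Fin n) : Finset (Fin n) :=
  Finset.univ.filter (fun i => p ∈ fam w i)

theorem mem_SS (w : Equiv.Perm (Fin n)) (p : Fin n × Fin n) (i : Fin n) :
    i ∈ SS w p ↔ p ∈ fam w i := by
  simp [SS]

/-- `y` is south-east of `x` (later position and larger value). -/
def SE (w : Equiv.Perm (Fin n)) (x y : Fin n) : Prop := x < y ∧ w x < w y

/-- `p` and `q` are in the same row or in the same column. -/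
def RC {ι : Type} (p q : ι × ι) : Prop := p.1 = q.1 ∨ p.2 = q.2

/-- The component of the cell `c` (for steps between visible cells with a common row or column). -/
noncomputable def KK (w : Equiv.Perm (Fin n)) (c : Fin n × Fin n) : Finset (Fin n × Fin n) :=
  (Vi w).filter (fun p => Relation.ReflTransGen (fun a b => b ∈ Vi w ∧ RC a b) c p)

/-- `w` avoids the patterns 1432, 24153 and 31524. -/
def Av (w : Equiv.Perm (Fin n)) : Prop :=
  (∀ a b c d : Fin n, a < b → b < c → c < d → ¬ (w a < w d ∧ w d < w c ∧ w c < w b)) ∧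
  (∀ a b c d e : Fin n, a < b → b < c → c < d → d < e →
    ¬ (w c < w a ∧ w a < w e ∧ w e < w b ∧ w b < w d)) ∧
  (∀ a b c d e : Fin n, a < b → b < c → c < d → d < e →
    ¬ (w b < w d ∧ w d < w a ∧ w a < w e ∧ w e < w c))

/-- `w` has at most one descent: all the inversions cross the place `m`. -/
def OneD (w : Equiv.Perm (Fin n)) : Prop :=
  ∃ m : ℕ, ∀ i j : Fin n, i < j → w j < w i → i.val < m ∧ m ≤ j.val

/-- `K` is a component: a nonempty set of visible cells, closed under steps, and connected (every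
property which holds for some but not for all cells of `K` changes between two cells of `K` in the
same row or column). -/
structure Comp (w : Equiv.Perm (Fin n)) (K : Finset (Fin n × Fin n)) : Prop where
  ne : K.Nonempty
  sub : K ⊆ Vi w
  closed : ∀ p ∈ K, ∀ q ∈ Vi w, RC p q → q ∈ K
  conn : ∀ P : Fin n × Fin n → Prop, (∃ p ∈ K, P p) → (∃ q ∈ K, ¬ P q) →
    ∃ p ∈ K, ∃ q ∈ K, P p ∧ ¬ P q ∧ RC p q

/-- `S0` is the set of the common sites of the component `K`: the set of the sites which see the
cell `c0`, nonempty, contained in the set of the sites of every cell of `K`, and the other sites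
of the cells of `K` are south-east of all the elements of `S0`. -/
structure Base (w : Equiv.Perm (Fin n)) (K : Finset (Fin n × Fin n)) (S0 : Finset (Fin n)) :
    Prop where
  ne : S0.Nonempty
  ex : ∃ c0 ∈ K, S0 = SS w c0
  all : ∀ p ∈ K, S0 ⊆ SS w p
  se : ∀ p ∈ K, ∀ y ∈ SS w p, y ∉ S0 → ∀ x ∈ S0, SE w x y

end Pool.Agent.Work.MP_ca14f8_co.AV
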