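import Pool.Agent.Work.MP_ca14f8_co.AV.I_MU2

/-!
Item A1 of the block AV of MP_ca14f8_co: the standard space in terms of sets of cells.
-/

set_option autoImplicit false
open Classical

namespace Pool.Agent.Work.MP_ca14f8_co.AV

theorem A1_pf : S_A1 := by
  intro n w
  unfold L3.LLs LF
  refine Finset.prod_congr rfl fun i _ => ?_
  have hkey : ∀ (C : Finset (Fin n)) (ρ : Fin n → Fin n), C ⊆ L3.Gs w i →
      (∀ q ∈ C, ρ q ∈ L3.Gs w i) → L3.mr (L3.YY w) C ρ = L3.mr (YS (fam w i)) C ρ := by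
    intro C ρ hC hρ
    unfold L3.mr
    congr 1
    ext1 a b
    simp only [Matrix.of_apply, L3.YY, YS]
    have h1 := hC b.2
    have h2 := hρ a a.2
    simp only [L3.Gs, Finset.mem_filter, Finset.mem_univ, true_and] at h1 h2
    by_cases h3 : ρ (a : Fin n) < (b : Fin n) ∧ w (b : Fin n) < w (ρ (a : Fin n))
    · rw [if_pos h3, if_pos]
      exact (mem_fam w i _).2 ⟨h2.1, h3.1, h1.2, h3.2⟩
    · rw [if_neg h3, if_neg]
      intro h4
      have h5 := (mem_fam w i _).1 h4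
      exact h3 ⟨h5.2.1, h5.2.2.2⟩
  unfold L3.MM L3.MR MA
  apply le_antisymm
  · apply Submodule.span_mono
    rintro f ⟨C, ρ, hC, hρ, rfl⟩
    exact ⟨C, ρ, hkey C ρ hC hρ⟩
  · rw [Submodule.span_le]
    rintro f ⟨C, ρ, rfl⟩
    by_cases h0 : L3.mr (YS (fam w i)) C ρ = 0
    · rw [h0]
      exact Submodule.zero_mem _
    · obtain ⟨hc, hr⟩ := XMU2.rowcol _ C ρ h0
      have hC : C ⊆ L3.Gs w i := by
        intro b hb
        obtain ⟨a, ha⟩ := hc b hb
        have h5 := (mem_fam w i _).1 ha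
        simp only [L3.Gs, Finset.mem_filter, Finset.mem_univ, true_and]
        exact ⟨h5.1.trans h5.2.1, h5.2.2.1⟩
      have hρ : ∀ q ∈ C, ρ q ∈ L3.Gs w i := by
        intro b hb
        obtain ⟨a, ha⟩ := hr b hb
        have h5 := (mem_fam w i _).1 ha
        simp only [L3.Gs, Finset.mem_filter, Finset.mem_univ, true_and]
        exact ⟨h5.1, h5.2.2.1.trans h5.2.2.2⟩
      apply Submodule.subset_span
      exact ⟨C, ρ, hC, hρ, (hkey C ρ hC hρ).symm⟩

end Pool.Agent.Work.MP_ca14f8_co.AV
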