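import Pool.Agent.Work.MP_ca14f8_co.AV.Stmts

/-!
Item MAE of the block AV of MP_ca14f8_co: the empty set of cells.
-/

set_option autoImplicit false
open Classical

namespace Pool.Agent.Work.MP_ca14f8_co.AV

theorem MAE_pf : S_MAE := by
  intro ι _
  have hmr : ∀ (S : Finset (ι × ι)) (ρ : ι → ι), L3.mr (YS S) ∅ ρ = 1 := by
    intro S ρ
    unfold L3.mr
    exact Matrix.det_isEmpty
  have hone : ∀ S : Finset (ι × ι), (1 : MvPolynomial (ι × ι) ℚ) ∈ MA S := by
    intro S
    unfold MA
    apply Submodule.subset_span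
    exact ⟨∅, id, (hmr S id).symm⟩
  refine ⟨?_, hone⟩
  apply le_antisymm
  · unfold MA
    rw [Submodule.span_le]
    rintro f ⟨C, ρ, rfl⟩
    by_cases hC : C = ∅
    · subst hC
      rw [hmr]
      exact Submodule.one_le.1 le_rfl
    · obtain ⟨q, hq⟩ := Finset.nonempty_iff_ne_empty.2 hC
      have h0 : L3.mr (YS (∅ : Finset (ι × ι))) C ρ = 0 := by
        unfold L3.mr
        apply Matrix.det_eq_zero_of_column_eq_zero ⟨q, hq⟩
        intro a
        simp [YS]
      rw [h0]
      exact Submodule.zero_mem _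
  · exact Submodule.one_le.2 (hone ∅)

end Pool.Agent.Work.MP_ca14f8_co.AV
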