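import Pool.Agent.Work.MP_ca14f8_co.AV.Stmts

/-!
Item RD of the block AV of MP_ca14f8_co: relabelling for the blow-up.
-/

set_option autoImplicit false
open Classical

namespace Pool.Agent.Work.MP_ca14f8_co.AV

theorem RD_pf (hRL : S_RL) : S_RD := by
  intro ι κ ι' κ' _ _ _ _ _ _ k F F' φ ψ hφ hψ h1 h2
  unfold DD
  refine hRL (ι × Fin k) (κ × Fin k) (ι' × Fin k) (κ' × Fin k) (blw k F) (blw k F')
    (Prod.map φ id) (Prod.map ψ id) (hφ.prodMap Function.injective_id)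
    (hψ.prodMap Function.injective_id) ?_ ?_
  · rintro ⟨i, r⟩ ⟨⟨j, s⟩, ⟨q, t⟩⟩
    have h3 := h1 i (j, q)
    simp only [blw, Finset.mem_filter, Finset.mem_univ, true_and, Prod.map_apply, id_eq]
    rw [h3]
    constructor
    · rintro ⟨⟨a, b⟩, hab, he⟩
      simp only [Prod.mk.injEq] at he
      refine ⟨((a, s), (b, t)), hab, ?_⟩
      simp only [he.1, he.2, Prod.map_apply, id_eq]
    · rintro ⟨⟨⟨a, s'⟩, ⟨b, t'⟩⟩, hab, he⟩
      simp only [Prod.map_apply, id_eq, Prod.mk.injEq] at he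
      refine ⟨(a, b), hab, ?_⟩
      rw [he.1.1, he.2.1]
  · rintro ⟨i', r⟩ hi'
    have h4 : i' ∉ Set.range ψ := by
      rintro ⟨i, hi⟩
      apply hi'
      exact ⟨(i, r), by simp [hi]⟩
    have h5 := h2 i' h4
    ext p
    simp [blw, h5]

end Pool.Agent.Work.MP_ca14f8_co.AV
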