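import Pool.Agent.Work.MP_ca14f8_co.AV.Defs

/-!
Statements of the block AV of MP_ca14f8_co. Every docstring contains the proof. The landed files
L3 (formula `Ups w = finrank (LLs w)`) and OneDescentSums are used in S_UD and S_OD only.
-/

set_option autoImplicit false
open Classical

namespace Pool.Agent.Work.MP_ca14f8_co.AV

/-! ### Part A: algebra -/

/-- The empty set of cells: the matrix is `0`, its minors are `0` (nonempty `C`) and `1` (`C = ∅`).
And every `MA S` contains `1`. -/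
def S_MAE : Prop := ∀ (ι : Type) [DecidableEq ι],
  MA (∅ : Finset (ι × ι)) = 1 ∧ ∀ S : Finset (ι × ι), (1 : MvPolynomial (ι × ι) ℚ) ∈ MA S

/-- General minors: for arbitrary maps `r, c : γ → ι` (row and column labels) the determinant of
`YS S` with rows `r`, columns `c` is in `MA S`. If `c` is not injective it is `0` (two equal
columns); otherwise reindex by the image `C` of `c` (`ρ = r ∘ c⁻¹`). The same lemma for `MR` is
`L3.MRM_pf` (use it with `P = Q = univ` or copy the proof; here `ι` need not be finite). -/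
def S_GM : Prop := ∀ (ι γ : Type) [DecidableEq ι] [Fintype γ] [DecidableEq γ]
  (S : Finset (ι × ι)) (r c : γ → ι),
  (Matrix.of (fun a b : γ => YS S (r a) (c b))).det ∈ MA S

/-- Relabelling of one set of cells by an injective map `φ`. `⊇`: `rename` maps the minor
`(C, ρ)` of `YS S` to the determinant of `YS S'` with row labels `φ (ρ q)` and column labels
`φ q`, which is in `MA S'` by S_GM. `⊆`: let `f = mr (YS S') C' ρ'`. If some column `b ∈ C'` is not
in the range of `φ` then this column is zero and `f = 0`; the same if some `ρ' b` is not in the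
range of `φ` (zero row). Otherwise `f` is the image of the determinant of `YS S` with labels
`φ⁻¹ (ρ' b)`, `φ⁻¹ b`, in `MA S` by S_GM. (Note: `(φ a, φ b) ∈ S' ↔ (a, b) ∈ S`.) -/
def S_MAI : Prop := ∀ (ι ι' : Type) [DecidableEq ι] [DecidableEq ι'] (φ : ι → ι')
  (S : Finset (ι × ι)) (S' : Finset (ι' × ι')), Function.Injective φ →
  (∀ p : ι' × ι', p ∈ S' ↔ ∃ q ∈ S, p = (φ q.1, φ q.2)) →
  MA S' = (MA S).map (MvPolynomial.rename (Prod.map φ φ) :
    MvPolynomial (ι × ι) ℚ →ₐ[ℚ] MvPolynomial (ι' × ι') ℚ).toLinearMap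

/-- Relabelling of a family: `LF F' = ∏_(i' ∈ range ψ) MA (F' i') = ∏_i MA (F' (ψ i))` (S_MAE for the
other `i'`), this is `∏_i (MA (F i)).map (rename ..) = (LF F).map (rename ..)` (`Submodule.map_mul`
and induction for finite products), and `rename` of an injective map is injective
(`LinearMap.finrank_map_eq`-type lemma / `LinearEquiv.finrank_eq` for `Submodule.equivMapOfInjective`).
-/
def S_RL : Prop := ∀ (ι κ ι' κ' : Type) [DecidableEq ι] [DecidableEq ι'] [Fintype κ] [Fintype κ']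
  (F : κ → Finset (ι × ι)) (F' : κ' → Finset (ι' × ι')) (φ : ι → ι') (ψ : κ → κ'),
  Function.Injective φ → Function.Injective ψ →
  (∀ (i : κ) (p : ι' × ι'), p ∈ F' (ψ i) ↔ ∃ q ∈ F i, p = (φ q.1, φ q.2)) →
  (∀ i', i' ∉ Set.range ψ → F' i' = ∅) →
  Module.finrank ℚ (LF F') = Module.finrank ℚ (LF F)

/-- Relabelling for the blow-up: S_RL with `Prod.map φ id` and `Prod.map ψ id`. -/
def S_RD : Prop := ∀ (ι κ ι' κ' : Type) [DecidableEq ι] [DecidableEq ι'] [Fintype ι] [Fintype ι']
  [Fintype κ] [Fintype κ'] (k : ℕ)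
  (F : κ → Finset (ι × ι)) (F' : κ' → Finset (ι' × ι')) (φ : ι → ι') (ψ : κ → κ'),
  Function.Injective φ → Function.Injective ψ →
  (∀ (i : κ) (p : ι' × ι'), p ∈ F' (ψ i) ↔ ∃ q ∈ F i, p = (φ q.1, φ q.2)) →
  (∀ i', i' ∉ Set.range ψ → F' i' = ∅) →
  DD k F' = DD k F

/-- Upper inclusion. Generator `f = mr (YS (S ∪ S')) C ρ`. Let `C₁ ⊆ C` be the columns which are
the column of some cell of `S`, `C₂` the others. Reindex `C` as `C₁ ⊕ C₂` and apply the Laplace
expansion `L3.LPL_pf : L3.S_LPL` (L3/I_LPL.lean): `f` is in the span of the products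
`det (YS (S ∪ S')(r a, b))_(a,b ∈ C₁) * det (YS (S ∪ S') (r' a, b))_(a,b ∈ C₂)`. In a column
`b ∈ C₁` the entries are those of `YS S` (no cell of `S'` is in the column `b`), in a column of
`C₂` those of `YS S'`. S_GM. -/
def S_MU1 : Prop := ∀ (ι : Type) [DecidableEq ι] (S S' : Finset (ι × ι)),
  (∀ p ∈ S, ∀ p' ∈ S', p.1 ≠ p'.1 ∧ p.2 ≠ p'.2) → MA (S ∪ S') ≤ MA S * MA S'

/-- Lower inclusion. It is enough (`Submodule.mul_le`, `span_induction`, or `span_mul_span`) that
`mr (YS S) C ρ * mr (YS S') C' ρ' ∈ MA (S ∪ S')`. If one factor is `0`: clear. Otherwise every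
column `b ∈ C` is the column of a cell of `S` and every `ρ b` (`b ∈ C`) is the row of a cell of `S`
(else a zero column or a zero row), the same for `C'`, `ρ'`, `S'`. Consider the determinant of
`YS (S ∪ S')` over `C ⊕ C'` with row labels `(ρ, ρ')` and column labels `(id, id)`: it is
`fromBlocks A 0 0 B` with `A`, `B` the two matrices (a cell of `S ∪ S'` in a row of `S` is in `S`,
hence its column is a column of `S`), so it is the product (`Matrix.det_fromBlocks_zero₂₁`), and it
is in `MA (S ∪ S')` by S_GM. -/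
def S_MU2 : Prop := ∀ (ι : Type) [DecidableEq ι] (S S' : Finset (ι × ι)),
  (∀ p ∈ S, ∀ p' ∈ S', p.1 ≠ p'.1 ∧ p.2 ≠ p'.2) → MA S * MA S' ≤ MA (S ∪ S')

/-- Finite dimension and support. `MA S` is the span of a finite set if `ι` is finite (finitely many
pairs `(C, ρ)`), so finite products are finite dimensional; the entries of `YS (F i)` are in the
subalgebra `supported {p | ∃ i, p ∈ F i}` (determinants: `Subalgebra.sum_mem`, `prod_mem`, or
`MvPolynomial.supported` as a range of `aeval`; products of submodules contained in a subalgebra are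
contained in it). -/
def S_FS : Prop := ∀ (ι κ : Type) [DecidableEq ι] [Fintype ι] [Fintype κ]
  (F : κ → Finset (ι × ι)), FiniteDimensional ℚ (LF F) ∧
  ∀ f ∈ LF F, f ∈ MvPolynomial.supported ℚ {p : ι × ι | ∃ i, p ∈ F i}

/-- Products of spaces of polynomials in disjoint sets of variables. `≤`: the products of two bases
span. `≥`: the products `f_i g_j` of a basis of `A` and a basis of `B` are linearly independent: if
`∑ c_ij f_i g_j = 0`, evaluate the variables outside `s` at rational numbers (the `g_j` become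
numbers): `∑_i (∑_j c_ij g_j(y)) f_i = 0` in the polynomials in the variables of `s`, so
`∑_j c_ij g_j(y) = 0` for all `y` and `∑_j c_ij g_j = 0` (`MvPolynomial.funext`), `c_ij = 0`.
(Or `Submodule.LinearDisjoint` / tensor products, or `QE.StTens`.) -/
def S_FM : Prop := ∀ (σ : Type) (s t : Set σ), Disjoint s t →
  ∀ A B : Submodule ℚ (MvPolynomial σ ℚ), FiniteDimensional ℚ A → FiniteDimensional ℚ B →
  (∀ f ∈ A, f ∈ MvPolynomial.supported ℚ s) → (∀ f ∈ B, f ∈ MvPolynomial.supported ℚ t) →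
  Module.finrank ℚ (A * B : Submodule ℚ (MvPolynomial σ ℚ)) =
    Module.finrank ℚ A * Module.finrank ℚ B

/-- Multiplicativity. `blw k (F ∪ F') x = blw k F x ∪ blw k F' x`, no common rows and columns, so
`LF (blw k (F ∪ F')) = LF (blw k F) * LF (blw k F')` by S_MU1, S_MU2, `Finset.prod_mul_distrib`;
then S_FM and S_FS (the two sets of variables are disjoint because the rows are). -/
def S_DM : Prop := ∀ (ι κ : Type) [DecidableEq ι] [Fintype ι] [Fintype κ] (k : ℕ)
  (F F' : κ → Finset (ι × ι)),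
  (∀ i i', ∀ p ∈ F i, ∀ p' ∈ F' i', p.1 ≠ p'.1 ∧ p.2 ≠ p'.2) →
  DD k (fun i => F i ∪ F' i) = DD k F * DD k F'

/-! ### Part B: the bridge to `Ups` -/

/-- `MM w (Gs w i) = MA (fam w i)`: for `j, q ∈ Gs w i` we have `(j, q) ∈ fam w i` iff `j < q` and
`w q < w j`, so the minors of `YY w` with rows and columns in `Gs w i` are the minors of
`YS (fam w i)` with these rows and columns (`⊆`); a minor of `YS (fam w i)` with a column or a row
outside `Gs w i` is `0` (zero column or row). -/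
def S_A1 : Prop := ∀ (n : ℕ) (w : Equiv.Perm (Fin n)), L3.LLs w = LF (fam w)

/-- The blow-up of the family. With `lt_iff`, `Bl_apply` (Blow.lean): `x = (i, r)`, `p = ((j, s),
(q, t))`: `i ≤ j ≤ q` and `w i ≤ w q ≤ w j` lexicographically. `i = j` would give `q = i`, then
`r < s < t` and `r < t < s`; `j = q` would give `s < t` and `t < s`; `i = q` gives `i = j`. So all
the inequalities for the first components are strict, and conversely. -/
def S_FB : Prop := ∀ (n k : ℕ) (w : Equiv.Perm (Fin n)) (i j q : Fin n) (r s t : Fin k),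
  ((finProdFinEquiv (j, s), finProdFinEquiv (q, t)) : Fin (n * k) × Fin (n * k)) ∈
    fam (Bl k w) (finProdFinEquiv (i, r)) ↔ (j, q) ∈ fam w i

/-- The bridge. `Ups w = finrank (LLs w)` by `L3.LE_holds`, `L3.ME_pf (L3.M1_pf L3.R1_pf)` (that is
`LLs w ≤ EE w 0 0`), `L3.UE_holds` (L3/All.lean) as in L3/I_THM.lean. Then S_A1 for `w` and for
`Bl k w`, and S_RL: for `Bl k w` with `F = blw k (fam w)`, `F' = fam (Bl k w)`, `φ = ψ =
finProdFinEquiv` (bijective, S_FB); for `w` with `F = fam w`, `F' = blw 1 (fam w)`,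
`φ = ψ = fun x => (x, 0)`. -/
def S_UD : Prop := ∀ (n : ℕ) (w : Equiv.Perm (Fin n)),
  (∀ k : ℕ, Ups (Bl k w) = (DD k (fam w) : ℚ)) ∧ Ups w = (DD 1 (fam w) : ℚ)

/-- The landed inequality: `Pool.Agent.Results.MP_ca14f8_co.OneDescentSums.main` (copy the file, do
not import the hand-in), or directly: `OneD v` is `∃ m, Gr m v`; `Ups_Gr`, `Gr_Bl`, `V_Bl_ge`
(Gr.lean, Blow.lean), and `Bl_inv`, `Ups_inverse` for `v⁻¹`. -/
def S_OD : Prop := ∀ (n k : ℕ) (v : Equiv.Perm (Fin n)), (OneD v ∨ OneD v⁻¹) →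
  Ups v ^ (k ^ 2) ≤ Ups (Bl k v)

/-! ### Part C: combinatorics -/

/-- The components are components. `conn`: if `P c` then walk from `c` to the given `q` with
`¬ P q` along the path (`Relation.ReflTransGen.head_induction_on` or `..trans_induction_on`): at
some step `P` changes from true to false; all the cells of the path are in `KK w c`. If `¬ P c`,
walk from `c` to the given `p` with `P p`: at some step `P` changes from false to true (`RC` is
symmetric). -/
def S_CO : Prop := ∀ (n : ℕ) (w : Equiv.Perm (Fin n)), ∀ c ∈ Vi w,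
  Comp w (KK w c) ∧ c ∈ KK w c

/-- (P1) Let `p` and `q` be visible cells with a common row or column. Same column, `p = (j, a)`,
`q = (j', a)`, say `j < j'` (the case `j = j'` is trivial): `SS p ⊆ SS q`; `y ∈ SS q`, `y ∉ SS p`:
`j ≤ y < j'`, `y ≠ j` because `w y < w a < w j`. Let `x ∈ SS p`; `x < j < y`. If `w y < w x`: when
`w j < w j'` the positions `x, j, y, j', a` form 24153, when `w j' < w j` the positions
`x, j, j', a` form 1432. Same row, `p = (j, a)`, `q = (j, b)`, say `w a < w b`: `SS p ⊆ SS q`;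
`y ∈ SS q`, `y ∉ SS p`: `y < j`, `w a < w y < w b`. Let `x ∈ SS p`; `w x < w a < w y`. If `y < x`:
when `a < b` the positions `y, x, j, a, b` form 31524, when `b < a` the positions `x, j, b, a` form
1432. -/
def S_P1 : Prop := ∀ (n : ℕ) (w : Equiv.Perm (Fin n)), Av w → ∀ p ∈ Vi w, ∀ q ∈ Vi w, RC p q →
  (SS w p ⊆ SS w q ∧ ∀ x ∈ SS w p, ∀ y ∈ SS w q, y ∉ SS w p → SE w x y) ∨
  (SS w q ⊆ SS w p ∧ ∀ x ∈ SS w q, ∀ y ∈ SS w p, y ∉ SS w q → SE w x y)

/-- (P2) Take `c0 ∈ K` with `(SS w c0).card` minimal, `S0 = SS w c0` (nonempty since `c0` is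
visible). Let `P p` be `S0 ⊆ SS w p ∧ ∀ y ∈ SS w p, y ∉ S0 → ∀ x ∈ S0, SE w x y`. `P c0` holds. If
`P` fails for some cell of `K`, `Comp.conn` gives `p, q ∈ K` with `P p`, `¬ P q`, `RC p q`. By S_P1:
if `SS p ⊆ SS q` with the difference south-east of `SS p ⊇ S0` then `P q` holds. If `SS q ⊆ SS p`
with the difference south-east of `SS q`: if `S0 ⊆ SS q` then `P q` (as `SS q ⊆ SS p`). Otherwise
take `s ∈ S0`, `s ∉ SS q`; every `x ∈ SS q` is in `SS p` and `SE w x s`; if `x ∉ S0` then `SE w s x`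
by `P p`, a contradiction; so `SS q ⊆ S0` and `s ∉ SS q`: the card of `SS q` is smaller than that of
`S0`, a contradiction. -/
def S_P2 : Prop := ∀ (n : ℕ) (w : Equiv.Perm (Fin n)), Av w → ∀ K, Comp w K →
  ∃ S0 : Finset (Fin n), Base w K S0

/-- (P5) The sites outside `S0` are letters of `K`. Let `y ∈ SS w p`, `y ∉ S0`, `P r := y ∉ SS w r`;
`P c0` and `¬ P p`: `Comp.conn` gives `a, b ∈ K` with `y ∉ SS a`, `y ∈ SS b`, `RC a b`. Let
`x ∈ S0 ⊆ SS a`; `SE w x y` by `Base.se` (for `b`). Same column, `a = (j, q)`, `b = (j', q)`: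
`y < j'`, `w y < w q < w j`, so `j ≤ y` (as `y ∉ SS a`), `j < y`, and `(j, y)` is an inversion seen
by `x` (`x < j`, `w x < w y`): it is visible and in the row of `a`, so in `K`, `y` is its column.
Same row, `a = (j, q)`, `b = (j, q')`: `y < j < q`, `w y < w q'`; `y ∉ SS a` gives `w q ≤ w y`,
`w q < w y` (`y ≠ q`), so `(y, q)` is an inversion seen by `x` (`x < y`, `w x < w q`), visible and in
the column of `a`, so in `K`. -/
def S_P5 : Prop := ∀ (n : ℕ) (w : Equiv.Perm (Fin n)) (K) (S0 : Finset (Fin n)), Comp w K →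
  Base w K S0 → ∀ p ∈ K, ∀ y ∈ SS w p, y ∉ S0 → ∃ r ∈ K, y = r.1 ∨ y = r.2

/-- (P4) `S0` is north-west of the letters of `K`: `x ∈ SS w p`: `x < p.1 < p.2`,
`w x < w p.2 < w p.1`. -/
def S_P4 : Prop := ∀ (n : ℕ) (w : Equiv.Perm (Fin n)) (K) (S0 : Finset (Fin n)), Base w K S0 →
  ∀ x ∈ S0, ∀ p ∈ K, SE w x p.1 ∧ SE w x p.2

/-- (P6) Let `x ∈ S0` (nonempty), use S_P4 and the avoidance of 1432 (first letter `x`).
(a) rows: `p.1 < q.1` and `w q.1 < w p.1` (not equal): `x, p.1, q.1, q.2`. (b) columns: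
`p.2 < q.2`, `w q.2 < w p.2`: `x, p.1, p.2, q.2`. (c) `p.1 = q.2`: `x, q.1, q.2 = p.1, p.2`.
(d) `l, l'` letters, `l < l'`, `w l' < w l`: if `l = p.2` is a column then `x, p.1, l, l'` is 1432
(`p.1 < l`, `w l < w p.1`); so `l = p.1` is a row; if `l' = q.1` is a row then `x, l, l', q.2` is
1432; so `l' = q.2`; the cell `(l, l')` is seen by `x`, it is visible and in the row of `p`. -/
def S_P6 : Prop := ∀ (n : ℕ) (w : Equiv.Perm (Fin n)) (K) (S0 : Finset (Fin n)), Av w →
  Comp w K → Base w K S0 →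
  (∀ p ∈ K, ∀ q ∈ K, p.1 < q.1 → w p.1 < w q.1) ∧
  (∀ p ∈ K, ∀ q ∈ K, p.2 < q.2 → w p.2 < w q.2) ∧
  (∀ p ∈ K, ∀ q ∈ K, p.1 ≠ q.2) ∧
  (∀ l l' : Fin n, (∃ p ∈ K, l = p.1 ∨ l = p.2) → (∃ q ∈ K, l' = q.1 ∨ l' = q.2) →
    l < l' → w l' < w l → (l, l') ∈ K)

/-- (P7) Suppose not: `y, x' ∈` columns, rows with `y < x'`, and a row `x''`, a column `y''` with
`w x'' < w y''`. Let `y1` be the smallest column letter (position), `xr` the largest row letter,
`x1` the smallest row letter, `ys` the largest column letter: `y1 < xr`, `w x1 < w ys` (rows and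
columns are increasing, S_P6). Case A: some row letter `x` has `x < y1` and `w ys < w x`: the
positions `x1, x, y1, xr, ys` form 24153 (`x1 ≠ x`; `xr < ys` since `xr` is the row of a cell of `K`;
`w y1 < w x1` since `x1` is the row of a cell of `K`; `w x < w xr`). Case B: otherwise. The row of a
cell with column `y1` is `< y1`; let `as` be the largest row letter `< y1`; `w as < w ys`. A cell
with column `ys` shows that the set of the row letters `b` which have a cell `(b, q3) ∈ K` with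
`w as < w q3` is nonempty; let `bs` be its smallest element, `(bs, q3) ∈ K`, `w as < w q3`.
`as < bs` (for a row `b ≤ as`: `w q3 < w b ≤ w as`), so `y1 < bs` by the choice of `as`. `Comp.conn`
for `P p := p.1 < bs` (it holds for a cell of row `as`, not for `(bs, q3)`): cells `p, p' ∈ K`,
`p.1 < bs ≤ p'.1`, `RC p p'`, so they have the same column `q`; `bs ≤ p'.1 < q`; `w q < w as` by the
minimality of `bs` (`q ≠ as` by S_P6 (c)). The positions `as, y1, bs, q, q3` form 31524: `q < q3`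
because the columns are increasing and `w q < w as < w q3`; `w y1 < w q` because `y1 < bs < q`;
`w q3 < w bs`. -/
def S_P7 : Prop := ∀ (n : ℕ) (w : Equiv.Perm (Fin n)) (K) (S0 : Finset (Fin n)), Av w →
  Comp w K → Base w K S0 →
  (∀ p ∈ K, ∀ q ∈ K, p.1 < q.2) ∨ (∀ p ∈ K, ∀ q ∈ K, w q.2 < w p.1)

/-- Standardisation: `v = (Tuple.sort f)⁻¹` (Mathlib: `Tuple.monotone_sort`), or: `v a` = the number
of `b` with `f b < f a`. -/
def S_ST : Prop := ∀ (N : ℕ) (f : Fin N → ℕ), Function.Injective f →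
  ∃ v : Equiv.Perm (Fin N), ∀ a b : Fin N, v a < v b ↔ f a < f b

/-- (P8), (P9). `K = KK w c`, `S0` from S_P2, `T = S0 ∪ rows ∪ columns` (a `Finset (Fin n)`),
`N = T.card`, `φ = T.orderEmbOfFin rfl` (strictly increasing, range `T`), `f x = x.val` for
`x ∈ S0` and `f x = n + (w x).val` otherwise (injective on `T`), `v` from S_ST for `f ∘ φ`.
(1) `(j, q) = (φ b, φ c')` with `b, c' ∈ Fin N`, `i = φ a`: if `(j, q) ∈ fam w i` and `∈ K`:
`i < j < q` gives `a < b < c'`; `f i < f q` (if `i ∈ S0`: `f i < n ≤ f q`, `q ∉ S0` by S_P4), and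
`f q < f j` as `w q < w j`. So `(b, c') ∈ fam v a`. Conversely let `(b, c') ∈ fam v a`:
`i < j < q`, `f i < f q < f j`. If `q ∈ S0`: `f j > f q` and `j < q` exclude `j ∈ S0`, and a letter
`j` of `K` is `> q` by S_P4. So `q ∉ S0` is a letter of `K`; `j ∈ S0` would give `f j < n ≤ f q`; so
`j` is a letter of `K`, `w q < w j`, `(j, q) ∈ K` by S_P6 (d). `w i < w q`: S_P4 if `i ∈ S0`, else
from `f`. So `(j, q) ∈ fam w i`.
(2) `i ∉ range φ`, `p ∈ fam w i`, `p ∈ K`: `i ∈ SS w p`, so `i ∈ S0` or `i` is a letter of `K`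
(S_P5), a contradiction.
(3) As in (1) an inversion `b < c'`, `v c' < v b` of `v` has `φ b, φ c' ∉ S0` and
`(φ b, φ c') ∈ K`. By S_P7: if all the rows are before all the columns, let `m` be the smallest
`c'.val` for which `φ c'` is a column: then `b.val < m ≤ c'.val`, `OneD v`. If all the columns have
smaller values than all the rows, let `m` be the smallest `(v b).val` for which `φ b` is a row:
an inversion `s < t`, `v⁻¹ t < v⁻¹ s` of `v⁻¹`, with `b = v⁻¹ t`, `c' = v⁻¹ s`, has
`m ≤ t = v b` and `s = v c' < m` (`f` of a column is smaller than `f` of every row): `OneD v⁻¹`. -/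
def S_CL : Prop := ∀ (n : ℕ) (w : Equiv.Perm (Fin n)), Av w → ∀ c ∈ Vi w,
  ∃ (N : ℕ) (v : Equiv.Perm (Fin N)) (φ : Fin N → Fin n), Function.Injective φ ∧
    (OneD v ∨ OneD v⁻¹) ∧
    (∀ (a : Fin N) (p : Fin n × Fin n), (p ∈ fam w (φ a) ∧ p ∈ KK w c) ↔
      ∃ q ∈ fam v a, p = (φ q.1, φ q.2)) ∧
    (∀ i, i ∉ Set.range φ → ∀ p ∈ fam w i, p ∉ KK w c)

/-! ### Part D: assembly -/

/-- Restriction of the family of `w` to the cells in `U`. -/
noncomputable def rs {n : ℕ} (w : Equiv.Perm (Fin n)) (U : Finset (Fin n × Fin n))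
    (i : Fin n) : Finset (Fin n × Fin n) := (fam w i).filter (fun p => p ∈ U)

/-- One component: by S_CL and S_RD `DD k (rs w (KK w c)) = DD k (fam v)` for all `k`, then S_UD for
`v` and S_OD. -/
def S_ONE : Prop := ∀ (n k : ℕ) (w : Equiv.Perm (Fin n)), Av w → ∀ c ∈ Vi w,
  DD 1 (rs w (KK w c)) ^ (k ^ 2) ≤ DD k (rs w (KK w c))

/-- All closed sets of cells. Induction on `U.card`. `U = ∅`: `DD k = finrank (1) = 1` (S_MAE;
`LF (blw k _) = 1`), and `1 ^ (k ^ 2) = 1`. Otherwise let `c ∈ U`, `K = KK w c ⊆ U` (`U` is closed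
under steps: induction along `ReflTransGen`), `U' = U \ K`: no cell of `K` has a row or column in
common with a cell of `U'` (`K` is closed: S_CO), `U'` is closed, `rs w U i = rs w K i ∪ rs w U' i`;
S_DM (for `k` and for `1`), S_ONE, induction, `mul_pow`, `Nat.mul_le_mul`. -/
def S_ALL : Prop := ∀ (n k : ℕ) (w : Equiv.Perm (Fin n)), Av w → ∀ U : Finset (Fin n × Fin n),
  U ⊆ Vi w → (∀ p ∈ U, ∀ q ∈ Vi w, RC p q → q ∈ U) →
  DD 1 (rs w U) ^ (k ^ 2) ≤ DD k (rs w U)

/-- The theorem: S_ALL for `U = Vi w` (`rs w (Vi w) = fam w`) and S_UD. -/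
def S_THM : Prop := ∀ (n k : ℕ) (w : Equiv.Perm (Fin n)), Av w →
  Ups w ^ (k ^ 2) ≤ Ups (Bl k w)

end Pool.Agent.Work.MP_ca14f8_co.AV
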